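import Pool.Agent.R425.MK.Lim

/-!
# Thin families of points near a given point
-/

set_option autoImplicit false

namespace Pool.Agent.R559.NP

open Filter Topology MeasureTheory

variable {T X : Type} [Countable T] [MetricSpace X]

omit [Countable T] in
/-- counting a set through the subtype -/
lemma count_subtype {H : T → ℝ} {Q : T → Prop} {B C : ℝ}
    (hfin : {x | Q x ∧ H x ≤ B}.Finite)
    (hK : (({x | Q x ∧ H x ≤ B}.ncard : ℕ) : ℝ) ≤ C) :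
    {i : {x // Q x} | H i.1 ≤ B}.Finite ∧
      (({i : {x // Q x} | H i.1 ≤ B}.ncard : ℕ) : ℝ) ≤ C := by
  have himg : Subtype.val '' {i : {x // Q x} | H i.1 ≤ B} = {x | Q x ∧ H x ≤ B} := by
    ext x
    simp only [Set.mem_image, Set.mem_ofPred_eq, Subtype.exists, exists_and_left, exists_prop,
      exists_eq_right_right]
    tauto
  have hinj : Set.InjOn Subtype.val {i : {x // Q x} | H i.1 ≤ B} :=
    Subtype.val_injective.injOn
  constructor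
  · refine Set.Finite.of_finite_image ?_ hinj
    rw [himg]
    exact hfin
  · rw [← hinj.ncard_image, himg]
    exact hK

omit [Countable T] in
lemma finite_of_subtype {H : T → ℝ} (h1 : ∀ t, 1 ≤ H t) {Bad : T → Prop}
    (φ : T → X) (τ : ℝ) (ξ : X) {A A' : ℝ} (hA : A ≤ A')
    (h : {i : {t // Bad t} | dist (φ i.1) ξ ≤ A' * H i.1 ^ (-τ)}.Finite) :
    {t | dist (φ t) ξ ≤ A * H t ^ (-τ) ∧ Bad t}.Finite := by
  refine (h.image Subtype.val).subset ?_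
  rintro x ⟨h2, h3⟩
  refine ⟨⟨x, h3⟩, ?_, rfl⟩
  simp only [Set.mem_ofPred_eq]
  refine h2.trans ?_
  have := h1 x
  have h0 : 0 ≤ H x ^ (-τ) := by positivity
  exact mul_le_mul_of_nonneg_right hA h0

/-- the dimension bound -/
theorem near_dim {H : T → ℝ} (h1 : ∀ t, 1 ≤ H t) {Bad : T → Prop} {s τ : ℝ} (hs : 0 ≤ s)
    (hτ : 0 < τ)
    (hcount : ∀ ε : ℝ, 0 < ε → ∃ C : ℝ, ∀ B : ℝ, 1 ≤ B → {t | Bad t ∧ H t ≤ B}.Finite ∧
      (({t | Bad t ∧ H t ≤ B}.ncard : ℕ) : ℝ) ≤ C * B ^ (s + ε))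
    (φ : T → X) :
    ∃ E : Set X, dimH E ≤ ENNReal.ofReal (s / τ) ∧
      ∀ ξ : X, ξ ∉ E → ∀ A : ℝ, {t | dist (φ t) ξ ≤ A * H t ^ (-τ) ∧ Bad t}.Finite := by
  refine ⟨⋃ k : ℕ, {ξ : X | {i : {t // Bad t} |
    dist (φ i.1) ξ ≤ ((k : ℝ) + 1) * H i.1 ^ (-τ)}.Infinite}, ?_, ?_⟩
  · rw [dimH_iUnion]
    refine iSup_le fun k => ?_
    refine Pool.Agent.R425.MK.dimH_balls (fun i : {t // Bad t} => φ i.1)
      (fun i => H i.1) (fun i => h1 i.1) hs hτ (by positivity) fun ε hε => ?_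
    obtain ⟨C, hC⟩ := hcount ε hε
    exact ⟨C, fun B hB => count_subtype (hC B hB).1 (hC B hB).2⟩
  · intro ξ hξ A
    obtain ⟨k, hk⟩ := exists_nat_ge A
    rw [Set.mem_iUnion] at hξ
    push Not at hξ
    have h := hξ k
    rw [Set.mem_ofPred_eq, Set.not_infinite] at h
    exact finite_of_subtype h1 φ τ ξ (by linarith) h

/-- the bound almost everywhere -/
theorem near_ae [MeasurableSpace X] (μ : Measure X) {C₀ m : ℝ}
    (hμ : ∀ (x : X) (r : ℝ), 0 < r → μ (Metric.closedBall x r) ≤ ENNReal.ofReal (C₀ * r ^ m))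
    {H : T → ℝ} (h1 : ∀ t, 1 ≤ H t) {Bad : T → Prop} {s τ : ℝ} (hs : 0 ≤ s) (hsm : s < τ * m)
    (hcount : ∀ ε : ℝ, 0 < ε → ∃ C : ℝ, ∀ B : ℝ, 1 ≤ B → {t | Bad t ∧ H t ≤ B}.Finite ∧
      (({t | Bad t ∧ H t ≤ B}.ncard : ℕ) : ℝ) ≤ C * B ^ (s + ε))
    (φ : T → X) :
    ∀ᵐ ξ ∂μ, ∀ A : ℝ, {t | dist (φ t) ξ ≤ A * H t ^ (-τ) ∧ Bad t}.Finite := by
  have h : ∀ k : ℕ, ∀ᵐ ξ ∂μ, {i : {t // Bad t} |
      dist (φ i.1) ξ ≤ ((k : ℝ) + 1) * H i.1 ^ (-τ)}.Finite := fun k =>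
    Pool.Agent.R425.MK.ae_balls μ hμ (fun i : {t // Bad t} => φ i.1)
      (fun i => H i.1) (fun i => h1 i.1) hs hsm (by positivity) fun ε hε => by
        obtain ⟨C, hC⟩ := hcount ε hε
        exact ⟨C, fun B hB => count_subtype (hC B hB).1 (hC B hB).2⟩
  filter_upwards [ae_all_iff.2 h] with ξ hξ A
  obtain ⟨k, hk⟩ := exists_nat_ge A
  exact finite_of_subtype h1 φ τ ξ (by linarith) (hξ k)

/-- a family of exceptional sets with exponents tending to zero -/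
theorem near_zero {H : T → ℝ} (h1 : ∀ t, 1 ≤ H t) {Bad : ℕ → T → Prop} {s : ℕ → ℝ}
    (hs : ∀ j, 0 ≤ s j) (hlim : Tendsto s atTop (𝓝 0))
    (hcount : ∀ j, ∀ ε : ℝ, 0 < ε → ∃ C : ℝ, ∀ B : ℝ, 1 ≤ B → {t | Bad j t ∧ H t ≤ B}.Finite ∧
      (({t | Bad j t ∧ H t ≤ B}.ncard : ℕ) : ℝ) ≤ C * B ^ (s j + ε))
    (φ : T → X) :
    ∃ E : Set X, dimH E = 0 ∧ ∀ ξ : X, ξ ∉ E → ∀ A τ : ℝ, 0 < τ →
      ∃ j : ℕ, {t | dist (φ t) ξ ≤ A * H t ^ (-τ) ∧ Bad j t}.Finite := by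
  have h : ∀ k j : ℕ, ∃ E : Set X, dimH E ≤ ENNReal.ofReal (s j / (1 / ((k : ℝ) + 1))) ∧
      ∀ ξ : X, ξ ∉ E → ∀ A : ℝ,
        {t | dist (φ t) ξ ≤ A * H t ^ (-(1 / ((k : ℝ) + 1))) ∧ Bad j t}.Finite :=
    fun k j => near_dim h1 (hs j) (by positivity) (hcount j) φ
  choose E hdim hgood using h
  refine ⟨⋃ k, ⋂ j, E k j, ?_, ?_⟩
  · rw [dimH_iUnion, ENNReal.iSup_eq_zero]
    intro k
    rw [← nonpos_iff_eq_zero]
    have hl : Tendsto (fun j : ℕ => ENNReal.ofReal (s j / (1 / ((k : ℝ) + 1)))) atTop (𝓝 0) := by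
      rw [← ENNReal.ofReal_zero]
      apply ENNReal.tendsto_ofReal
      have h5 := hlim.div_const (1 / ((k : ℝ) + 1))
      rwa [zero_div] at h5
    exact ge_of_tendsto' hl fun j => (dimH_mono (Set.iInter_subset _ j)).trans (hdim k j)
  · intro ξ hξ A τ hτ
    obtain ⟨k, hk⟩ := exists_nat_ge (1 / τ)
    have hk' : 1 / ((k : ℝ) + 1) ≤ τ := by
      rw [div_le_iff₀ (by positivity)]
      rw [div_le_iff₀ hτ] at hk
      nlinarith
    have h2 : ξ ∉ ⋂ j, E k j := fun hcon => hξ (Set.mem_iUnion.2 ⟨k, hcon⟩)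
    rw [Set.mem_iInter] at h2
    push Not at h2
    obtain ⟨j, hj⟩ := h2
    refine ⟨j, (hgood k j ξ hj (max A 0)).subset ?_⟩
    rintro t ⟨h3, h4⟩
    refine ⟨h3.trans ?_, h4⟩
    have h5 := h1 t
    calc A * H t ^ (-τ) ≤ max A 0 * H t ^ (-τ) :=
          mul_le_mul_of_nonneg_right (le_max_left _ _) (by positivity)
      _ ≤ max A 0 * H t ^ (-(1 / ((k : ℝ) + 1))) := by
          refine mul_le_mul_of_nonneg_left ?_ (le_max_right _ _)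
          exact Real.rpow_le_rpow_of_exponent_le h5 (by linarith)

end Pool.Agent.R559.NP
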