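import Pool.Agent.R323.Cvt

/-!
# Preperiodic points of a single rational map over `ℚ`, and conjugation
-/

set_option autoImplicit false

namespace Pool.Agent.R559.NP

open Pool.Agent.R323

/-- a single map does not have arbitrarily many rational preperiodic points -/
theorem not_many (d : ℕ) (hd : 2 ≤ d) (c : Fin 2 → Fin (d + 1) → ℤ) (hc : NZ c) :
    ∃ N : ℕ, ¬ Many N c := by
  classical
  obtain ⟨C, A, hC, H⟩ := pre_orb d hd
  obtain ⟨X, hX1, hX⟩ : ∃ X : ℕ, 1 ≤ X ∧ ∀ i j, |c i j| ≤ (X : ℤ) := by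
    refine ⟨1 + ∑ i, ∑ j, (c i j).natAbs, by omega, fun i j => ?_⟩
    have h1 : (c i j).natAbs ≤ ∑ j, (c i j).natAbs :=
      Finset.single_le_sum (f := fun j => (c i j).natAbs) (fun _ _ => Nat.zero_le _) (Finset.mem_univ j)
    have h2 : ∑ j, (c i j).natAbs ≤ ∑ i, ∑ j, (c i j).natAbs :=
      Finset.single_le_sum (f := fun i => ∑ j, (c i j).natAbs) (fun _ _ => Nat.zero_le _) (Finset.mem_univ i)
    rw [Int.abs_eq_natAbs]
    exact_mod_cast (by omega : (c i j).natAbs ≤ 1 + ∑ i, ∑ j, (c i j).natAbs)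
  set B : ℕ := C * X ^ A with hB
  refine ⟨(2 * B + 1) ^ 2, ?_⟩
  rintro ⟨P, hP, hP1, -⟩
  have hsub : P ⊆ Fintype.piFinset fun _ : Fin 2 => Finset.Icc (-(B : ℤ)) B := by
    intro z hz
    obtain ⟨h1, h2⟩ := hP1 z hz
    obtain ⟨G, z', hG, hz', he, hm⟩ := H X hX1 c hX hc z h1 h2 0
    simp only [Function.iterate_zero, id_eq] at he
    have h3 : mx z ≤ B := by
      have hu : IsUnit G := by
        apply h1.isUnit_of_dvd'
        · rw [he]
          exact ⟨z' 0, by simp⟩
        · rw [he]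
          exact ⟨z' 1, by simp⟩
      have h4 : mx z = mx z' := by
        rcases Int.isUnit_iff.1 hu with h | h
        · rw [he, h, one_smul]
        · rw [he, h]
          unfold mx
          simp
      rw [h4]
      exact hm
    rw [Fintype.mem_piFinset]
    intro i
    rw [Finset.mem_Icc]
    exact abs_le.1 ((le_mx z i).trans (by exact_mod_cast h3))
  have h5 := Finset.card_le_card hsub
  rw [Fintype.card_piFinset, Finset.prod_const, Int.card_Icc, Finset.card_univ, Fintype.card_fin] at h5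
  have h6 : ((B : ℤ) + 1 - -(B : ℤ)).toNat = 2 * B + 1 := by omega
  rw [h6] at h5
  omega

end Pool.Agent.R559.NP
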