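import Pool.Agent.R323.NF.V

/-!
# Preperiodic points of a single rational map over a number field, and conjugation
-/

set_option autoImplicit false

namespace Pool.Agent.R559.NP

open Pool.Agent.R323 Height

section field

variable {K : Type} [Field K] {d : ℕ}

/-- conjugate over `K` -/
def Cj (F G : Fin 2 → Fin (d + 1) → K) : Prop :=
  ∃ A : Matrix (Fin 2) (Fin 2) K, A.det ≠ 0 ∧ ∀ v : Fin 2 → K, v ≠ 0 → ∃ c : K, c ≠ 0 ∧
    ac G (A.mulVec v) = c • A.mulVec (ac F v)

/-- the preperiodic points in the projective line over `K` -/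
def Pre (F : Fin 2 → Fin (d + 1) → K) : Set (Projectivization K (Fin 2 → K)) :=
  {p | ∃ m n : ℕ, m < n ∧ ∃ c : K, c ≠ 0 ∧ (ac F)^[n] p.rep = c • (ac F)^[m] p.rep}

lemma Cj.refl (F : Fin 2 → Fin (d + 1) → K) : Cj F F :=
  ⟨1, by simp, fun v _ => ⟨1, one_ne_zero, by simp⟩⟩

lemma mulVec_ne {A : Matrix (Fin 2) (Fin 2) K} (hA : A.det ≠ 0) {v : Fin 2 → K} (hv : v ≠ 0) :
    A.mulVec v ≠ 0 := by
  intro h
  exact hv (Matrix.eq_zero_of_mulVec_eq_zero hA h)

lemma Cj.symm {F G : Fin 2 → Fin (d + 1) → K} (h : Cj F G) : Cj G F := by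
  obtain ⟨A, hA, h⟩ := h
  have hu : IsUnit A.det := isUnit_iff_ne_zero.2 hA
  have hA' : (A⁻¹).det ≠ 0 := by
    rw [Matrix.det_nonsing_inv]
    exact isUnit_iff_ne_zero.1 (hu.ringInverse)
  refine ⟨A⁻¹, hA', fun v hv => ?_⟩
  obtain ⟨c, hc, h1⟩ := h (A⁻¹.mulVec v) (mulVec_ne hA' hv)
  rw [Matrix.mulVec_mulVec, Matrix.mul_nonsing_inv A hu, Matrix.one_mulVec] at h1
  refine ⟨c⁻¹, inv_ne_zero hc, ?_⟩
  rw [h1, Matrix.mulVec_smul, Matrix.mulVec_mulVec, Matrix.nonsing_inv_mul A hu, Matrix.one_mulVec, smul_smul,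
    inv_mul_cancel₀ hc, one_smul]

lemma Cj.trans {F G H : Fin 2 → Fin (d + 1) → K} (h : Cj F G) (h' : Cj G H) : Cj F H := by
  obtain ⟨A, hA, h⟩ := h
  obtain ⟨B, hB, h'⟩ := h'
  refine ⟨B * A, by rw [Matrix.det_mul]; exact mul_ne_zero hB hA, fun v hv => ?_⟩
  obtain ⟨c, hc, h1⟩ := h v hv
  obtain ⟨c', hc', h2⟩ := h' (A.mulVec v) (mulVec_ne hA hv)
  refine ⟨c' * c, mul_ne_zero hc' hc, ?_⟩
  rw [← Matrix.mulVec_mulVec, h2, h1, Matrix.mulVec_smul, smul_smul, Matrix.mulVec_mulVec]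

lemma iter_ne0 {F : Fin 2 → Fin (d + 1) → K} (hF : ∀ v : Fin 2 → K, v ≠ 0 → ac F v ≠ 0) {v : Fin 2 → K}
    (hv : v ≠ 0) (n : ℕ) : (ac F)^[n] v ≠ 0 := by
  induction n with
  | zero => exact hv
  | succ n ih =>
    rw [Function.iterate_succ_apply']
    exact hF _ ih

lemma cj_iter {F G : Fin 2 → Fin (d + 1) → K} (hF : ∀ v : Fin 2 → K, v ≠ 0 → ac F v ≠ 0)
    {A : Matrix (Fin 2) (Fin 2) K}
    (h : ∀ v : Fin 2 → K, v ≠ 0 → ∃ c : K, c ≠ 0 ∧ ac G (A.mulVec v) = c • A.mulVec (ac F v))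
    {v : Fin 2 → K} (hv : v ≠ 0) (n : ℕ) :
    ∃ c : K, c ≠ 0 ∧ (ac G)^[n] (A.mulVec v) = c • A.mulVec ((ac F)^[n] v) := by
  induction n with
  | zero => exact ⟨1, one_ne_zero, by simp⟩
  | succ n ih =>
    obtain ⟨c, hc, h1⟩ := ih
    obtain ⟨c', hc', h2⟩ := h _ (iter_ne0 hF hv n)
    refine ⟨c ^ d * c', mul_ne_zero (pow_ne_zero _ hc) hc', ?_⟩
    rw [Function.iterate_succ_apply', Function.iterate_succ_apply', h1, ac_smul, h2, smul_smul]

/-- conjugate maps have the same number of preperiodic points -/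
lemma Cj.pre {F G : Fin 2 → Fin (d + 1) → K} (hF : ∀ v : Fin 2 → K, v ≠ 0 → ac F v ≠ 0) (h : Cj F G) :
    (Pre F).encard ≤ (Pre G).encard := by
  obtain ⟨A, hA, h⟩ := h
  have hinj : Function.Injective (Matrix.mulVecLin A) := by
    rw [injective_iff_map_eq_zero]
    intro v hv
    exact Matrix.eq_zero_of_mulVec_eq_zero hA hv
  rw [← Function.Injective.encard_image (Projectivization.map_injective _ hinj) (Pre F)]
  refine Set.encard_le_encard ?_
  rintro _ ⟨p, ⟨m, n, hmn, c, hc, hp⟩, rfl⟩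
  obtain ⟨a, ha0, ha⟩ : ∃ a : K, a ≠ 0 ∧
      (Projectivization.map (Matrix.mulVecLin A) hinj p).rep = a • A.mulVec p.rep := by
    have h0 : A.mulVec p.rep ≠ 0 := mulVec_ne hA p.rep_nonzero
    have h1 : Projectivization.map (Matrix.mulVecLin A) hinj p = Projectivization.mk K (A.mulVec p.rep) h0 := by
      conv_lhs => rw [← p.mk_rep]
      rw [Projectivization.map_mk]
      rfl
    obtain ⟨u, hu⟩ := Projectivization.exists_smul_eq_mk_rep K (A.mulVec p.rep) h0
    refine ⟨(u : K), u.ne_zero, ?_⟩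
    rw [h1, ← hu]
    rfl
  obtain ⟨c1, hc1, e1⟩ := cj_iter hF h p.rep_nonzero n
  obtain ⟨c2, hc2, e2⟩ := cj_iter hF h p.rep_nonzero m
  have h3 : a ^ (d ^ n) ≠ 0 := pow_ne_zero _ ha0
  have h4 : a ^ (d ^ m) * c2 ≠ 0 := mul_ne_zero (pow_ne_zero _ ha0) hc2
  refine ⟨m, n, hmn, a ^ (d ^ n) * c1 * c * (a ^ (d ^ m) * c2)⁻¹,
    mul_ne_zero (mul_ne_zero (mul_ne_zero h3 hc1) hc) (inv_ne_zero h4), ?_⟩
  rw [ha, ac_iter_smul, ac_iter_smul, e1, e2, hp, Matrix.mulVec_smul]
  simp only [smul_smul]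
  congr 1
  field_simp

end field

section nf

variable {K : Type} [Field K] [NumberField K] {d : ℕ}

/-- a bound for the loss of height -/
theorem exists_Hb (hd : 2 ≤ d) {c : Fin 2 → Fin (d + 1) → K} {L : Type} [Field L] [IsAlgClosed L]
    (g : K →+* L) (h : ∀ v : Fin 2 → L, ac (fun i j => g (c i j)) v = 0 → v = 0) : ∃ κ : ℝ, Hb c κ := by
  classical
  obtain ⟨C, A, hC, H⟩ := ht_step d (by omega)
  -- integral coefficients
  have halg : Algebra.IsAlgebraic ℤ K :=
    (IsFractionRing.comap_isAlgebraic_iff (A := ℤ) (K := ℚ) (C := K)).2 inferInstance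
  obtain ⟨b, hb0, hb⟩ := Algebra.IsAlgebraic.exists_integral_multiples ℤ
    (Finset.univ.image fun p : Fin 2 × Fin (d + 1) => c p.1 p.2)
  have hbK : (b : K) ≠ 0 := by exact_mod_cast hb0
  set c' : Fin 2 → Fin (d + 1) → K := fun i j => (b : K) * c i j with hc'
  have hint : ∀ i j, IsIntegral ℤ (c' i j) := by
    intro i j
    have h1 := hb (c i j) (Finset.mem_image.2 ⟨(i, j), Finset.mem_univ _, rfl⟩)
    rwa [zsmul_eq_mul] at h1
  -- the size of the coefficients
  set X : ℝ := 1 + ∑ v : NumberField.InfinitePlace K, ∑ i, ∑ j, v (c' i j) with hX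
  have hX1 : 1 ≤ X := by
    have : 0 ≤ ∑ v : NumberField.InfinitePlace K, ∑ i, ∑ j, v (c' i j) :=
      Finset.sum_nonneg fun v _ => Finset.sum_nonneg fun i _ => Finset.sum_nonneg fun j _ => apply_nonneg v _
    linarith
  have hcX : ∀ (v : NumberField.InfinitePlace K) i j, v (c' i j) ≤ X := by
    intro v i j
    have h1 : v (c' i j) ≤ ∑ j, v (c' i j) :=
      Finset.single_le_sum (f := fun j => v (c' i j)) (fun _ _ => apply_nonneg v _) (Finset.mem_univ j)
    have h2 : ∑ j, v (c' i j) ≤ ∑ i, ∑ j, v (c' i j) :=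
      Finset.single_le_sum (f := fun i => ∑ j, v (c' i j))
        (fun _ _ => Finset.sum_nonneg fun _ _ => apply_nonneg v _) (Finset.mem_univ i)
    have h3 : ∑ i, ∑ j, v (c' i j) ≤ ∑ v : NumberField.InfinitePlace K, ∑ i, ∑ j, v (c' i j) :=
      Finset.single_le_sum (f := fun v : NumberField.InfinitePlace K => ∑ i, ∑ j, v (c' i j))
        (fun v _ => Finset.sum_nonneg fun _ _ => Finset.sum_nonneg fun _ _ => apply_nonneg v _)
        (Finset.mem_univ v)
    linarith
  -- the resultants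
  have hr := rsZ_ne_K (by omega : 1 ≤ d) g h
  have hgb : g (b : K) ≠ 0 := by
    rw [Ne, map_eq_zero_iff g g.injective]
    exact hbK
  have hr' := rsZ_ne_K (c := c') (by omega : 1 ≤ d) g (by
    intro v hv
    apply h v
    have e : (fun i j => g (c' i j)) = fun i j => g (b : K) * g (c i j) := by
      funext i j
      rw [hc', map_mul]
    rw [e, ac_scale] at hv
    exact (smul_eq_zero.1 hv).resolve_left hgb)
  set κ : ℝ := ((C : ℝ) * X ^ A) ^ (Module.finrank ℚ K) with hκ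
  have hκ1 : 1 ≤ κ := by
    refine one_le_pow₀ ?_
    have h1 : (1 : ℝ) ≤ C := by exact_mod_cast hC
    have h2 : (1 : ℝ) ≤ X ^ A := one_le_pow₀ hX1
    nlinarith
  refine ⟨κ, hκ1, hr.1, hr.2, fun z hz => ?_⟩
  have h1 := H K X hX1 c' hint hcX hr'.1 hr'.2 z hz (ac_ne (by omega) hr'.1 hr'.2 hz)
  have e : ac c' z = (b : K) • ac c z := ac_scale (b : K) c z
  rw [e, mulHeight_smul_eq_mulHeight _ hbK] at h1
  exact h1

/-- a single map has only finitely many preperiodic points over `K` -/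
theorem pre_bound (hd : 2 ≤ d) {c : Fin 2 → Fin (d + 1) → K} {L : Type} [Field L] [IsAlgClosed L]
    (g : K →+* L) (h : ∀ v : Fin 2 → L, ac (fun i j => g (c i j)) v = 0 → v = 0) :
    ∃ N : ℕ, (Pre c).encard ≤ N := by
  classical
  obtain ⟨κ, hκ⟩ := exists_Hb hd g h
  have hfin := NumberField.finite_setOfPred_mulHeight₁_le (K := K) κ
  refine ⟨hfin.toFinset.card + 1, ?_⟩
  by_contra hcon
  obtain ⟨P, hP, hP1, hP2⟩ := many_of' c _ (not_le.1 hcon)
  -- the coordinate
  let f : (Fin 2 → K) → Option K := fun z => if z 1 = 0 then none else some (z 0 / z 1)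
  have hinj : Set.InjOn f (P : Set (Fin 2 → K)) := by
    intro z hz z' hz' he
    by_contra hne
    apply hP2 z hz z' hz' hne
    unfold wg
    simp only [f] at he
    by_cases h1 : z 1 = 0
    · by_cases h2 : z' 1 = 0
      · rw [h1, h2]
        ring
      · rw [if_pos h1, if_neg h2] at he
        exact absurd he (by simp)
    · by_cases h2 : z' 1 = 0
      · rw [if_neg h1, if_pos h2] at he
        exact absurd he (by simp)
      · rw [if_neg h1, if_neg h2, Option.some_inj, div_eq_div_iff h1 h2] at he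
        linear_combination he
  have hsub : P.image f ⊆ insert none (hfin.toFinset.image some) := by
    intro x hx
    obtain ⟨z, hz, rfl⟩ := Finset.mem_image.1 hx
    simp only [f]
    by_cases h1 : z 1 = 0
    · rw [if_pos h1]
      exact Finset.mem_insert_self _ _
    · rw [if_neg h1]
      refine Finset.mem_insert_of_mem (Finset.mem_image_of_mem _ ?_)
      rw [Set.Finite.mem_toFinset, Set.mem_ofPred_eq, mulHeight₁_eq_mulHeight]
      obtain ⟨hz0, m, n, hmn, hw⟩ := hP1 z hz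
      have h2 := hκ.pre hd hz0 hmn hw 0
      simp only [Function.iterate_zero, id_eq] at h2
      have e : z = (z 1) • (![z 0 / z 1, 1] : Fin 2 → K) := by
        funext i
        fin_cases i
        · simp [mul_div_cancel₀, h1]
        · simp
      rw [e, mulHeight_smul_eq_mulHeight _ h1] at h2
      exact h2
  have h3 := Finset.card_le_card hsub
  rw [Finset.card_image_of_injOn hinj] at h3
  have h4 : (insert none (hfin.toFinset.image some) : Finset (Option K)).card ≤ hfin.toFinset.card + 1 :=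
    (Finset.card_insert_le _ _).trans (Nat.add_le_add_right Finset.card_image_le _)
  omega

end nf

end Pool.Agent.R559.NP
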