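import Pool.Agent.R559.NP.Near

/-!
# Families of points near a given point, with exponents tending to a limit
-/

set_option autoImplicit false

namespace Pool.Agent.R559.NP

open Filter Topology MeasureTheory

/-- countably many families of exceptional sets with exponents tending to `s₀` -/
theorem near_lim_fam {T X Y : Type} [Countable T] [MetricSpace X] [Countable Y] {H : T → ℝ}
    (h1 : ∀ t, 1 ≤ H t) {Bad : ℕ → Y → T → Prop} {s : ℕ → ℝ} {s₀ : ℝ}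
    (hs : ∀ j, 0 ≤ s j) (hlim : Tendsto s atTop (𝓝 s₀))
    (hcount : ∀ j y, ∀ ε : ℝ, 0 < ε → ∃ C : ℝ, ∀ B : ℝ, 1 ≤ B →
      {t | Bad j y t ∧ H t ≤ B}.Finite ∧
      (({t | Bad j y t ∧ H t ≤ B}.ncard : ℕ) : ℝ) ≤ C * B ^ (s j + ε))
    (φ : Y → T → X) {τ : ℝ} (hτ : 0 < τ) :
    ∃ E : Set X, dimH E ≤ ENNReal.ofReal (s₀ / τ) ∧ ∀ ξ : X, ξ ∉ E →
      ∃ j : ℕ, ∀ (y : Y) (A : ℝ), {t | dist (φ y t) ξ ≤ A * H t ^ (-τ) ∧ Bad j y t}.Finite := by
  have h : ∀ (j : ℕ) (y : Y), ∃ E : Set X, dimH E ≤ ENNReal.ofReal (s j / τ) ∧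
      ∀ ξ : X, ξ ∉ E → ∀ A : ℝ, {t | dist (φ y t) ξ ≤ A * H t ^ (-τ) ∧ Bad j y t}.Finite :=
    fun j y => near_dim h1 (hs j) hτ (hcount j y) (φ y)
  choose E hdim hgood using h
  refine ⟨⋂ j, ⋃ y, E j y, ?_, ?_⟩
  · have hl : Tendsto (fun j : ℕ => ENNReal.ofReal (s j / τ)) atTop (𝓝 (ENNReal.ofReal (s₀ / τ))) :=
      ENNReal.tendsto_ofReal (hlim.div_const τ)
    refine ge_of_tendsto' hl fun j => (dimH_mono (Set.iInter_subset _ j)).trans ?_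
    rw [dimH_iUnion]
    exact iSup_le fun y => hdim j y
  · intro ξ hξ
    rw [Set.mem_iInter] at hξ
    push Not at hξ
    obtain ⟨j, hj⟩ := hξ
    rw [Set.mem_iUnion] at hj
    push Not at hj
    exact ⟨j, fun y A => hgood j y ξ (hj y) A⟩

end Pool.Agent.R559.NP
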