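import Pool.Agent.R559.NP.Near

/-!
# Thin families of points near a given point, depending on a countable parameter
-/

set_option autoImplicit false

namespace Pool.Agent.R559.NP

open Filter Topology MeasureTheory

/-- countably many families of exceptional sets with exponents tending to zero -/
theorem near_zero_fam {T X Y : Type} [Countable T] [MetricSpace X] [Countable Y] {H : T → ℝ}
    (h1 : ∀ t, 1 ≤ H t) {Bad : ℕ → Y → T → Prop} {s : ℕ → ℝ}
    (hs : ∀ j, 0 ≤ s j) (hlim : Tendsto s atTop (𝓝 0))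
    (hcount : ∀ j y, ∀ ε : ℝ, 0 < ε → ∃ C : ℝ, ∀ B : ℝ, 1 ≤ B →
      {t | Bad j y t ∧ H t ≤ B}.Finite ∧
      (({t | Bad j y t ∧ H t ≤ B}.ncard : ℕ) : ℝ) ≤ C * B ^ (s j + ε))
    (φ : Y → T → X) :
    ∃ E : Set X, dimH E = 0 ∧ ∀ ξ : X, ξ ∉ E → ∀ τ : ℝ, 0 < τ →
      ∃ j : ℕ, ∀ (y : Y) (A : ℝ), {t | dist (φ y t) ξ ≤ A * H t ^ (-τ) ∧ Bad j y t}.Finite := by
  have h : ∀ (k j : ℕ) (y : Y), ∃ E : Set X, dimH E ≤ ENNReal.ofReal (s j / (1 / ((k : ℝ) + 1))) ∧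
      ∀ ξ : X, ξ ∉ E → ∀ A : ℝ,
        {t | dist (φ y t) ξ ≤ A * H t ^ (-(1 / ((k : ℝ) + 1))) ∧ Bad j y t}.Finite :=
    fun k j y => near_dim h1 (hs j) (by positivity) (hcount j y) (φ y)
  choose E hdim hgood using h
  refine ⟨⋃ k, ⋂ j, ⋃ y, E k j y, ?_, ?_⟩
  · rw [dimH_iUnion, ENNReal.iSup_eq_zero]
    intro k
    rw [← nonpos_iff_eq_zero]
    have hl : Tendsto (fun j : ℕ => ENNReal.ofReal (s j / (1 / ((k : ℝ) + 1)))) atTop (𝓝 0) := by
      rw [← ENNReal.ofReal_zero]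
      apply ENNReal.tendsto_ofReal
      have h5 := hlim.div_const (1 / ((k : ℝ) + 1))
      rwa [zero_div] at h5
    refine ge_of_tendsto' hl fun j => (dimH_mono (Set.iInter_subset _ j)).trans ?_
    rw [dimH_iUnion]
    exact iSup_le fun y => hdim k j y
  · intro ξ hξ τ hτ
    obtain ⟨k, hk⟩ := exists_nat_ge (1 / τ)
    have hk' : 1 / ((k : ℝ) + 1) ≤ τ := by
      rw [div_le_iff₀ (by positivity)]
      rw [div_le_iff₀ hτ] at hk
      nlinarith
    have h2 : ξ ∉ ⋂ j, ⋃ y, E k j y := fun hcon => hξ (Set.mem_iUnion.2 ⟨k, hcon⟩)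
    rw [Set.mem_iInter] at h2
    push Not at h2
    obtain ⟨j, hj⟩ := h2
    rw [Set.mem_iUnion] at hj
    push Not at hj
    refine ⟨j, fun y A => (hgood k j y ξ (hj y) (max A 0)).subset ?_⟩
    rintro t ⟨h3, h4⟩
    refine ⟨h3.trans ?_, h4⟩
    have h5 := h1 t
    calc A * H t ^ (-τ) ≤ max A 0 * H t ^ (-τ) :=
          mul_le_mul_of_nonneg_right (le_max_left _ _) (by positivity)
      _ ≤ max A 0 * H t ^ (-(1 / ((k : ℝ) + 1))) := by
          refine mul_le_mul_of_nonneg_left ?_ (le_max_right _ _)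
          exact Real.rpow_le_rpow_of_exponent_le h5 (by linarith)

end Pool.Agent.R559.NP
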