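import Pool.Agent.R559.NP.Near2

/-!
# Thin increasing families of sets near a given point
-/

set_option autoImplicit false

namespace Pool.Agent.R559.NP

open Filter Topology MeasureTheory

/-- increasing families of sets, of sizes at most `C T ^ (s j)`, with `s j → 0` -/
theorem near_zero_lvl {Z X Y : Type} [Countable Z] [MetricSpace X] [Countable Y]
    {F : ℕ → Y → ℕ → Set Z} (hmono : ∀ j y t t', t ≤ t' → F j y t ⊆ F j y t') {s : ℕ → ℝ}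
    (hs : ∀ j, 0 ≤ s j) (hlim : Tendsto s atTop (𝓝 0))
    (hcount : ∀ j y, ∃ C : ℝ, ∀ T : ℕ, 1 ≤ T →
      (F j y T).Finite ∧ (((F j y T).ncard : ℕ) : ℝ) ≤ C * (T : ℝ) ^ (s j))
    (φ : Y → Z → X) :
    ∃ E : Set X, dimH E = 0 ∧ ∀ ξ : X, ξ ∉ E → ∀ τ : ℝ, 0 < τ →
      ∃ j : ℕ, ∀ (y : Y) (c : ℝ),
        {z | ∃ T : ℕ, 1 ≤ T ∧ z ∈ F j y T ∧ dist (φ y z) ξ ≤ c * (T : ℝ) ^ (-τ)}.Finite := by
  classical
  obtain ⟨E, hE, hE'⟩ := near_zero_fam (T := Z × ℕ) (X := X) (Y := Y)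
    (H := fun t => max (t.2 : ℝ) 1) (fun t => le_max_right _ _)
    (Bad := fun j y t => 1 ≤ t.2 ∧ t.1 ∈ F j y t.2 ∧ ∀ t' : ℕ, 1 ≤ t' → t.1 ∈ F j y t' → t.2 ≤ t')
    (s := s) hs hlim (by
      intro j y ε hε
      obtain ⟨C, hC⟩ := hcount j y
      refine ⟨max C 0, fun B hB => ?_⟩
      have hfl : 1 ≤ ⌊B⌋₊ := Nat.le_floor (by exact_mod_cast hB)
      obtain ⟨h1, h2⟩ := hC ⌊B⌋₊ hfl
      set S : Set (Z × ℕ) := {t | (1 ≤ t.2 ∧ t.1 ∈ F j y t.2 ∧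
        ∀ t' : ℕ, 1 ≤ t' → t.1 ∈ F j y t' → t.2 ≤ t') ∧ max (t.2 : ℝ) 1 ≤ B} with hS
      have hmaps : ∀ t ∈ S, t.1 ∈ F j y ⌊B⌋₊ := by
        rintro ⟨z, t⟩ ⟨⟨-, h3, -⟩, h4⟩
        exact hmono j y _ _ (Nat.le_floor ((le_max_left _ _).trans h4)) h3
      have hinj : Set.InjOn Prod.fst S := by
        rintro ⟨z, t⟩ ⟨⟨h3, h4, h5⟩, -⟩ ⟨z', t'⟩ ⟨⟨h3', h4', h5'⟩, -⟩ he
        simp only at he h3 h4 h5 h3' h4' h5'
        subst he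
        have e1 := h5 t' h3' h4'
        have e2 := h5' t h3 h4
        rw [Prod.mk.injEq]
        exact ⟨rfl, le_antisymm e1 e2⟩
      have hfin : S.Finite := Set.Finite.of_finite_image
        (h1.subset (by rintro z ⟨t, ht, rfl⟩; exact hmaps t ht)) hinj
      refine ⟨hfin, ?_⟩
      have h6 : S.ncard ≤ (F j y ⌊B⌋₊).ncard := by
        rw [← hinj.ncard_image]
        exact Set.ncard_le_ncard (by rintro z ⟨t, ht, rfl⟩; exact hmaps t ht) h1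
      have hfl' : (1 : ℝ) ≤ (⌊B⌋₊ : ℝ) := by exact_mod_cast hfl
      calc ((S.ncard : ℕ) : ℝ) ≤ ((F j y ⌊B⌋₊).ncard : ℝ) := by exact_mod_cast h6
        _ ≤ C * (⌊B⌋₊ : ℝ) ^ (s j) := h2
        _ ≤ max C 0 * (⌊B⌋₊ : ℝ) ^ (s j) :=
          mul_le_mul_of_nonneg_right (le_max_left _ _) (by positivity)
        _ ≤ max C 0 * B ^ (s j + ε) := by
          refine mul_le_mul_of_nonneg_left ?_ (le_max_right _ _)
          calc (⌊B⌋₊ : ℝ) ^ (s j) ≤ B ^ (s j) :=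
                Real.rpow_le_rpow (by positivity) (Nat.floor_le (by linarith)) (hs j)
            _ ≤ B ^ (s j + ε) := Real.rpow_le_rpow_of_exponent_le hB (by linarith))
    (fun y t => φ y t.1)
  refine ⟨E, hE, fun ξ hξ τ hτ => ?_⟩
  obtain ⟨j, hj⟩ := hE' ξ hξ τ hτ
  refine ⟨j, fun y c => ((hj y (max c 0)).image Prod.fst).subset ?_⟩
  rintro z ⟨T, hT, hz, hd⟩
  have hex : ∃ t : ℕ, 1 ≤ t ∧ z ∈ F j y t := ⟨T, hT, hz⟩
  obtain ⟨h1, h2⟩ := Nat.find_spec hex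
  have h3 : Nat.find hex ≤ T := Nat.find_min' hex ⟨hT, hz⟩
  refine ⟨(z, Nat.find hex), ⟨?_, h1, h2, fun t' ht' hz' => Nat.find_min' hex ⟨ht', hz'⟩⟩, rfl⟩
  have h4 : (1 : ℝ) ≤ (Nat.find hex : ℝ) := by exact_mod_cast h1
  show dist (φ y z) ξ ≤ max c 0 * (max ((Nat.find hex : ℕ) : ℝ) 1) ^ (-τ)
  rw [max_eq_left h4]
  have hT' : (0 : ℝ) < (T : ℝ) := by exact_mod_cast hT
  calc dist (φ y z) ξ ≤ c * (T : ℝ) ^ (-τ) := hd
    _ ≤ max c 0 * (T : ℝ) ^ (-τ) := mul_le_mul_of_nonneg_right (le_max_left _ _) (by positivity)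
    _ ≤ max c 0 * ((Nat.find hex : ℕ) : ℝ) ^ (-τ) := by
      refine mul_le_mul_of_nonneg_left ?_ (le_max_right _ _)
      exact Real.rpow_le_rpow_of_nonpos (by linarith) (by exact_mod_cast h3) (by linarith)

end Pool.Agent.R559.NP
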