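import Pool.Agent.R559.NP.Near3

/-!
# Few classes near a given point
-/

set_option autoImplicit false

namespace Pool.Agent.R559.NP

open Filter Topology MeasureTheory

/-- the field of algebraic numbers is countable -/
theorem countable_Qbar : Countable (AlgebraicClosure ℚ) := by
  have : Algebra.IsAlgebraic ℚ (AlgebraicClosure ℚ) := AlgebraicClosure.isAlgebraic ℚ
  have h := Algebra.IsAlgebraic.cardinalMk_le_max ℚ (AlgebraicClosure ℚ)
  rw [Cardinal.mk_eq_aleph0 ℚ, max_self] at h
  exact Cardinal.mk_le_aleph0_iff.1 h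

/-- families of objects with few exceptional classes -/
theorem near_classes {M X : Type} [MetricSpace X] (r : Setoid M) (hc : Countable (Quotient r)) (φ : M → X)
    (hφ : ∀ f g, r f g → φ f = φ g) (Exc : ℕ → ℕ → M → Prop)
    (hmono : ∀ j T T' f, T ≤ T' → Exc j T f → Exc j T' f)
    (hcount : ∀ j : ℕ, ∃ C : ℝ, ∀ T : ℕ, 1 ≤ T → ∀ S : Finset M, (∀ f ∈ S, Exc j T f) →
      (∀ f ∈ S, ∀ g ∈ S, f ≠ g → ¬ r f g) → (S.card : ℝ) ≤ C * (T : ℝ) ^ (1 / ((j : ℝ) + 1))) :
    ∃ E : Set X, dimH E = 0 ∧ ∀ ξ : X, ξ ∉ E → ∀ τ : ℝ, 0 < τ → ∃ j : ℕ, ∀ κ : ℝ, ∃ S : Finset M,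
      ∀ (f : M) (T : ℕ), 1 ≤ T → Exc j T f → dist (φ f) ξ ≤ κ * (T : ℝ) ^ (-τ) → ∃ g ∈ S, r g f := by
  classical
  choose C hC using hcount
  obtain ⟨E, hE, hE'⟩ := near_zero_lvl (Z := Quotient r) (Y := Unit) (X := X)
    (F := fun j _ T => {z | ∃ f : M, Quotient.mk r f = z ∧ Exc j T f})
    (by
      rintro j - t t' htt z ⟨f, h1, h2⟩
      exact ⟨f, h1, hmono j t t' f htt h2⟩)
    (s := fun j => 1 / ((j : ℝ) + 1)) (fun j => by positivity) tendsto_one_div_add_atTop_nhds_zero_nat
    (by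
      intro j _
      refine ⟨|C j|, fun T hT => ?_⟩
      set Q : Set (Quotient r) := {z | ∃ f : M, Quotient.mk r f = z ∧ Exc j T f} with hQ
      have key : ∀ P : Finset (Quotient r), (∀ z ∈ P, z ∈ Q) →
          (P.card : ℝ) ≤ C j * (T : ℝ) ^ (1 / ((j : ℝ) + 1)) := by
        intro P hP
        have hP' : ∀ z : Quotient r, ∃ f : M, z ∈ P → Quotient.mk r f = z ∧ Exc j T f := by
          intro z
          by_cases h : z ∈ P
          · obtain ⟨f, hf⟩ := hP z h
            exact ⟨f, fun _ => hf⟩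
          · exact ⟨z.out, fun h' => absurd h' h⟩
        choose g hg using hP'
        have hinj : Set.InjOn g P := by
          intro z hz z' hz' he
          rw [← (hg z hz).1, ← (hg z' hz').1, he]
        rw [← Finset.card_image_of_injOn hinj]
        refine hC j T hT (P.image g) ?_ ?_
        · intro f hf
          obtain ⟨z, hz, rfl⟩ := Finset.mem_image.1 hf
          exact (hg z hz).2
        · intro f hf f' hf' hne hr
          obtain ⟨z, hz, rfl⟩ := Finset.mem_image.1 hf
          obtain ⟨z', hz', rfl⟩ := Finset.mem_image.1 hf'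
          apply hne
          have : z = z' := by
            rw [← (hg z hz).1, ← (hg z' hz').1]
            exact Quotient.sound (s := r) hr
          rw [this]
      have hfin : Q.Finite := by
        by_contra hinf
        obtain ⟨P, hP1, hP2⟩ := (show Q.Infinite from hinf).exists_subset_card_eq
          (⌊C j * (T : ℝ) ^ (1 / ((j : ℝ) + 1))⌋₊ + 1)
        have h2 := key P (fun x hx => hP1 hx)
        rw [hP2] at h2
        push_cast at h2
        have h3 := Nat.lt_floor_add_one (C j * (T : ℝ) ^ (1 / ((j : ℝ) + 1)))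
        linarith
      refine ⟨hfin, ?_⟩
      rw [Set.ncard_eq_toFinset_card _ hfin]
      refine (key hfin.toFinset (fun x hx => by
        rw [Set.Finite.mem_toFinset] at hx
        exact hx)).trans ?_
      exact mul_le_mul_of_nonneg_right (le_abs_self _) (by positivity))
    (fun _ z => Quotient.lift φ hφ z)
  refine ⟨E, hE, fun ξ hξ τ hτ => ?_⟩
  obtain ⟨j, hj⟩ := hE' ξ hξ τ hτ
  refine ⟨j, fun κ => ⟨(hj () κ).toFinset.image Quotient.out, fun f T hT hf hd => ?_⟩⟩
  refine ⟨(Quotient.mk r f).out, Finset.mem_image_of_mem _ ?_, Quotient.exact (s := r) (Quotient.out_eq _)⟩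
  rw [Set.Finite.mem_toFinset]
  exact ⟨T, hT, ⟨f, rfl, hf⟩, hd⟩

end Pool.Agent.R559.NP
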