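import Mathlib

/-!
# Counting functions from the counts in dyadic blocks
-/

set_option autoImplicit false

namespace Pool.Agent.R559.NP

/-- If at most `C T ^ s` elements have size in `(T / 2, T]`, then `O (T ^ s)` have size at most `T`. -/
theorem dyadic_count {α : Type} {Q : α → Prop} {f : α → ℕ} {s C : ℝ} (hs : 0 < s)
    (hfin : ∀ T : ℕ, {x | Q x ∧ f x ≤ T}.Finite)
    (h : ∀ T : ℕ, 2 ≤ T →
      (({x | Q x ∧ f x ≤ T ∧ T < 2 * f x}.ncard : ℕ) : ℝ) ≤ C * (T : ℝ) ^ s) :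
    ∃ K : ℝ, 0 ≤ K ∧ ∀ T : ℕ, 1 ≤ T →
      (({x | Q x ∧ f x ≤ T}.ncard : ℕ) : ℝ) ≤ K * (T : ℝ) ^ s := by
  set N : ℕ → ℕ := fun T => {x | Q x ∧ f x ≤ T}.ncard with hN
  have h2s : (2 : ℝ) ^ (-s) < 1 := Real.rpow_lt_one_of_one_lt_of_neg (by norm_num) (by linarith)
  have hpos : 0 < 1 - (2 : ℝ) ^ (-s) := by linarith
  refine ⟨max (N 1 : ℝ) (C / (1 - (2 : ℝ) ^ (-s))), le_max_of_le_left (by positivity), ?_⟩
  set K := max (N 1 : ℝ) (C / (1 - (2 : ℝ) ^ (-s))) with hK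
  have hK0 : 0 ≤ K := le_max_of_le_left (by positivity)
  have hKC : K * (2 : ℝ) ^ (-s) + C ≤ K := by
    have h1 : C / (1 - (2 : ℝ) ^ (-s)) ≤ K := le_max_right _ _
    rw [div_le_iff₀ hpos] at h1
    nlinarith
  intro T
  induction T using Nat.strong_induction_on with
  | _ T ih =>
    intro hT
    rcases Nat.lt_or_ge T 2 with h2 | h2
    · have h1 : T = 1 := by omega
      subst h1
      simp only [Nat.cast_one, Real.one_rpow, mul_one]
      exact le_max_left _ _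
    · have h3 := ih (T / 2) (by omega) (by omega)
      have h4 := h T h2
      have h5 : {x | Q x ∧ f x ≤ T} ⊆
          {x | Q x ∧ f x ≤ T / 2} ∪ {x | Q x ∧ f x ≤ T ∧ T < 2 * f x} := by
        rintro x ⟨hx1, hx2⟩
        rcases Nat.lt_or_ge (T / 2) (f x) with h6 | h6
        · exact Or.inr ⟨hx1, hx2, by omega⟩
        · exact Or.inl ⟨hx1, h6⟩
      have h6 : {x | Q x ∧ f x ≤ T}.ncard ≤
          {x | Q x ∧ f x ≤ T / 2}.ncard + {x | Q x ∧ f x ≤ T ∧ T < 2 * f x}.ncard := by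
        refine (Set.ncard_le_ncard h5 ((hfin _).union ?_)).trans (Set.ncard_union_le _ _)
        exact (hfin T).subset fun x hx => ⟨hx.1, hx.2.1⟩
      have hTr : (0 : ℝ) < (T : ℝ) := by exact_mod_cast (by omega : 0 < T)
      have h7 : ((T / 2 : ℕ) : ℝ) ^ s ≤ (T : ℝ) ^ s * (2 : ℝ) ^ (-s) := by
        have h8 : ((T / 2 : ℕ) : ℝ) ≤ (T : ℝ) / 2 := Nat.cast_div_le
        calc ((T / 2 : ℕ) : ℝ) ^ s ≤ ((T : ℝ) / 2) ^ s :=
              Real.rpow_le_rpow (by positivity) h8 hs.le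
          _ = (T : ℝ) ^ s * (2 : ℝ) ^ (-s) := by
              rw [Real.div_rpow hTr.le (by norm_num), Real.rpow_neg (by norm_num)]
              rfl
      calc ((({x | Q x ∧ f x ≤ T}.ncard : ℕ)) : ℝ)
          ≤ ((({x | Q x ∧ f x ≤ T / 2}.ncard : ℕ)) : ℝ) +
            ((({x | Q x ∧ f x ≤ T ∧ T < 2 * f x}.ncard : ℕ)) : ℝ) := by exact_mod_cast h6
        _ ≤ K * ((T / 2 : ℕ) : ℝ) ^ s + C * (T : ℝ) ^ s := add_le_add h3 h4
        _ ≤ K * ((T : ℝ) ^ s * (2 : ℝ) ^ (-s)) + C * (T : ℝ) ^ s := by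
            gcongr
        _ = (K * (2 : ℝ) ^ (-s) + C) * (T : ℝ) ^ s := by ring
        _ ≤ K * (T : ℝ) ^ s := by gcongr

end Pool.Agent.R559.NP
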