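import Pool.Agent.R559.NP.Near

/-!
# Classes `(d; a_1, …, a_s)` near a given direction
-/

set_option autoImplicit false

namespace Pool.Agent.R559.NP

open Filter Topology MeasureTheory

/-- The size of a class: the largest of the numbers `d, a_1, …, a_s`. -/
def csize {s : ℕ} (x : ℕ × (Fin s → ℕ)) : ℕ := max x.1 (Finset.univ.sup x.2)

lemma csize_le {s : ℕ} {x : ℕ × (Fin s → ℕ)} {T : ℕ} :
    csize x ≤ T ↔ x.1 ≤ T ∧ ∀ j, x.2 j ≤ T := by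
  simp [csize]

lemma fst_le_csize {s : ℕ} (x : ℕ × (Fin s → ℕ)) : x.1 ≤ csize x := le_max_left _ _

/-- all `d, a_1, …, a_s` are positive -/
def Pos {s : ℕ} (x : ℕ × (Fin s → ℕ)) : Prop := 1 ≤ x.1 ∧ ∀ j, 1 ≤ x.2 j

lemma fin_size {s : ℕ} (T : ℕ) (Q : ℕ × (Fin s → ℕ) → Prop) :
    {x : ℕ × (Fin s → ℕ) | Q x ∧ csize x ≤ T}.Finite := by
  refine ((Finset.Icc 0 T) ×ˢ
    (Fintype.piFinset fun _ : Fin s => Finset.Icc 0 T)).finite_toSet.subset ?_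
  rintro x ⟨-, h2⟩
  rw [csize_le] at h2
  rw [Finset.mem_coe, Finset.mem_product, Fintype.mem_piFinset]
  exact ⟨Finset.mem_Icc.2 ⟨Nat.zero_le _, h2.1⟩, fun j => Finset.mem_Icc.2 ⟨Nat.zero_le _, h2.2 j⟩⟩

variable {s : ℕ} {Bad : ℕ → ℕ × (Fin s → ℕ) → Prop} {e : ℝ}

lemma count_real (he : 0 ≤ e) (h : ∀ i, ∃ K : ℝ, ∀ T : ℕ, 1 ≤ T →
      (({x | (Pos x ∧ Bad i x) ∧ csize x ≤ T}.ncard : ℕ) : ℝ) ≤ K * (T : ℝ) ^ e) (i : ℕ) :
    ∀ ε : ℝ, 0 < ε → ∃ C : ℝ, ∀ B : ℝ, 1 ≤ B →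
      {x | (Pos x ∧ Bad i x) ∧ max (1 : ℝ) (csize x) ≤ B}.Finite ∧
      (({x | (Pos x ∧ Bad i x) ∧ max (1 : ℝ) (csize x) ≤ B}.ncard : ℕ) : ℝ) ≤
        C * B ^ (e + ε) := by
  intro ε hε
  obtain ⟨K, hK⟩ := h i
  refine ⟨max K 0, fun B hB => ?_⟩
  have hsub : {x | (Pos x ∧ Bad i x) ∧ max (1 : ℝ) (csize x) ≤ B} ⊆
      {x | (Pos x ∧ Bad i x) ∧ csize x ≤ ⌊B⌋₊} := by
    rintro x ⟨h1, h2⟩
    exact ⟨h1, Nat.le_floor ((le_max_right _ _).trans h2)⟩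
  have hB1 : 1 ≤ ⌊B⌋₊ := (Nat.one_le_floor_iff _).2 hB
  refine ⟨(fin_size _ _).subset hsub, ?_⟩
  calc _ ≤ (({x | (Pos x ∧ Bad i x) ∧ csize x ≤ ⌊B⌋₊}.ncard : ℕ) : ℝ) := by
        exact_mod_cast Set.ncard_le_ncard hsub (fin_size _ _)
    _ ≤ K * ((⌊B⌋₊ : ℕ) : ℝ) ^ e := hK _ hB1
    _ ≤ max K 0 * ((⌊B⌋₊ : ℕ) : ℝ) ^ e := by
        gcongr
        exact le_max_left _ _
    _ ≤ max K 0 * B ^ e := by
        have := Nat.floor_le (show 0 ≤ B by linarith)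
        gcongr
    _ ≤ max K 0 * B ^ (e + ε) :=
        mul_le_mul_of_nonneg_left (Real.rpow_le_rpow_of_exponent_le hB (by linarith))
          (le_max_right _ _)

/-- Countably many families of exceptional classes, with the same exponent, near a point: dimension bound. -/
theorem class_dim (he : 0 ≤ e) (h : ∀ i, ∃ K : ℝ, ∀ T : ℕ, 1 ≤ T →
      (({x | (Pos x ∧ Bad i x) ∧ csize x ≤ T}.ncard : ℕ) : ℝ) ≤ K * (T : ℝ) ^ e)
    {X : Type} [MetricSpace X] (φ : ℕ × (Fin s → ℕ) → X) {τ : ℝ} (hτ : 0 < τ) :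
    ∃ E : Set X, dimH E ≤ ENNReal.ofReal (e / τ) ∧ ∀ ξ : X, ξ ∉ E → ∀ (i : ℕ) (A : ℝ),
      {x | Pos x ∧ dist (φ x) ξ ≤ A * (csize x : ℝ) ^ (-τ) ∧ Bad i x}.Finite := by
  have key := fun i => near_dim (H := fun x : ℕ × (Fin s → ℕ) => max (1 : ℝ) (csize x))
    (fun x => le_max_left _ _) he hτ (count_real he h i) φ
  choose E hE hE' using key
  refine ⟨⋃ i, E i, ?_, fun ξ hξ i A => ?_⟩
  · rw [dimH_iUnion]
    exact iSup_le hE
  · refine (hE' i ξ (fun hcon => hξ (Set.mem_iUnion.2 ⟨i, hcon⟩)) A).subset ?_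
    rintro x ⟨h1, h2, h3⟩
    refine ⟨?_, h1, h3⟩
    have h4 : max (1 : ℝ) (csize x) = csize x := by
      refine max_eq_right ?_
      exact_mod_cast h1.1.trans (fst_le_csize x)
    simp only [h4]
    exact h2

/-- Countably many families of exceptional classes, with the same exponent, near almost every point. -/
theorem class_ae (he : 0 ≤ e) (h : ∀ i, ∃ K : ℝ, ∀ T : ℕ, 1 ≤ T →
      (({x | (Pos x ∧ Bad i x) ∧ csize x ≤ T}.ncard : ℕ) : ℝ) ≤ K * (T : ℝ) ^ e)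
    {X : Type} [MetricSpace X] [MeasurableSpace X] (φ : ℕ × (Fin s → ℕ) → X)
    (μ : Measure X) {C₀ δ τ : ℝ}
    (hμ : ∀ (x : X) (r : ℝ), 0 < r → μ (Metric.closedBall x r) ≤ ENNReal.ofReal (C₀ * r ^ δ))
    (hτ : e < τ * δ) :
    ∀ᵐ ξ ∂μ, ∀ (i : ℕ) (A : ℝ),
      {x | Pos x ∧ dist (φ x) ξ ≤ A * (csize x : ℝ) ^ (-τ) ∧ Bad i x}.Finite := by
  rw [ae_all_iff]
  intro i
  have key := near_ae (τ := τ) μ hμ
    (H := fun x : ℕ × (Fin s → ℕ) => max (1 : ℝ) (csize x))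
    (fun x => le_max_left _ _) he hτ (count_real he h i) φ
  filter_upwards [key] with ξ hξ A
  refine (hξ A).subset ?_
  rintro x ⟨h1, h2, h3⟩
  refine ⟨?_, h1, h3⟩
  have h4 : max (1 : ℝ) (csize x) = csize x := by
    refine max_eq_right ?_
    exact_mod_cast h1.1.trans (fst_le_csize x)
  simp only [h4]
  exact h2

/-- Countably many families of exceptional classes near almost every direction `(1 : ξ_1 : … : ξ_s)`. -/
theorem class_dir (he : 0 ≤ e) (h : ∀ i, ∃ K : ℝ, ∀ T : ℕ, 1 ≤ T →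
      (({x | (Pos x ∧ Bad i x) ∧ csize x ≤ T}.ncard : ℕ) : ℝ) ≤ K * (T : ℝ) ^ e)
    {τ : ℝ} (hτ0 : 0 < τ) (hτ : e < τ * s) :
    ∀ᵐ ξ : Fin s → ℝ, ∀ (i : ℕ) (A : ℝ),
      {x | Pos x ∧ (∀ j, |(x.2 j : ℝ) / x.1 - ξ j| ≤ A * (x.1 : ℝ) ^ (-τ)) ∧ Bad i x}.Finite := by
  have hvol : ∀ (x : Fin s → ℝ) (r : ℝ), 0 < r →
      volume (Metric.closedBall x r) ≤ ENNReal.ofReal ((2 : ℝ) ^ s * r ^ (s : ℝ)) := by
    intro x r hr
    rw [Real.volume_pi_closedBall x hr.le, Fintype.card_fin, Real.rpow_natCast, mul_pow]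
  have h1 := class_ae he h (fun x j => (x.2 j : ℝ) / x.1) volume (C₀ := (2 : ℝ) ^ s)
    (δ := (s : ℝ)) (τ := τ) hvol hτ
  filter_upwards [h1] with ξ hξ i A
  set L : ℝ := 1 + ‖ξ‖ + |A| with hL
  have hL1 : 1 ≤ L := by
    have := norm_nonneg ξ
    have := abs_nonneg A
    linarith
  refine (hξ i (|A| * L ^ τ)).subset ?_
  rintro x ⟨h2, h3, h4⟩
  refine ⟨h2, ?_, h4⟩
  have hn0 : (1 : ℝ) ≤ (x.1 : ℝ) := by exact_mod_cast h2.1
  have hpw : (x.1 : ℝ) ^ (-τ) ≤ 1 := Real.rpow_le_one_of_one_le_of_nonpos hn0 (by linarith)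
  have hpw0 : 0 < (x.1 : ℝ) ^ (-τ) := by positivity
  have hclose : ∀ j : Fin s, |(x.2 j : ℝ) / x.1 - ξ j| ≤ |A| * (x.1 : ℝ) ^ (-τ) :=
    fun i => (h3 i).trans (mul_le_mul_of_nonneg_right (le_abs_self A) hpw0.le)
  have hsize : (csize x : ℝ) ≤ L * x.1 := by
    have h5 : ∀ j, (x.2 j : ℝ) ≤ L * x.1 := by
      intro j
      have h5 := hclose j
      have h6 : |ξ j| ≤ ‖ξ‖ := norm_le_pi_norm ξ j
      have h7 : (x.2 j : ℝ) / x.1 ≤ L := by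
        have h8 := abs_le.1 h5
        have h9 := abs_le.1 h6
        have h10 : |A| * (x.1 : ℝ) ^ (-τ) ≤ |A| := by
          have := abs_nonneg A
          nlinarith
        linarith [h8.2, h9.2]
      rwa [div_le_iff₀ (by linarith)] at h7
    have h6 : csize x ≤ ⌊L * x.1⌋₊ := by
      rw [csize_le]
      refine ⟨Nat.le_floor (by nlinarith), fun j => Nat.le_floor (h5 j)⟩
    exact (Nat.le_floor_iff (by positivity)).1 h6
  have hsize0 : (0 : ℝ) < csize x := by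
    have : (1 : ℝ) ≤ csize x := by exact_mod_cast h2.1.trans (fst_le_csize x)
    linarith
  have hkey : (x.1 : ℝ) ^ (-τ) ≤ L ^ τ * (csize x : ℝ) ^ (-τ) := by
    have h5 : (csize x : ℝ) ^ τ ≤ L ^ τ * (x.1 : ℝ) ^ τ := by
      rw [← Real.mul_rpow (by linarith) (by linarith)]
      exact Real.rpow_le_rpow hsize0.le hsize hτ0.le
    rw [Real.rpow_neg (by linarith), Real.rpow_neg hsize0.le, ← div_eq_mul_inv,
      le_div_iff₀ (by positivity), inv_mul_le_iff₀ (by positivity)]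
    linarith [h5, mul_comm ((x.1 : ℝ) ^ τ) (L ^ τ)]
  rw [dist_pi_le_iff (by positivity)]
  intro j
  rw [Real.dist_eq]
  calc |(x.2 j : ℝ) / x.1 - ξ j| ≤ |A| * (x.1 : ℝ) ^ (-τ) := hclose j
    _ ≤ |A| * (L ^ τ * (csize x : ℝ) ^ (-τ)) := by gcongr
    _ = |A| * L ^ τ * (csize x : ℝ) ^ (-τ) := by ring

end Pool.Agent.R559.NP
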