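import Pool.Agent.R559.NP.Near4

/-!
# Exceptional elements of number fields near a given point, in all number fields at once
-/

set_option autoImplicit false

namespace Pool.Agent.R559.NP

open Filter Topology MeasureTheory NumberField

/-- the algebraic numbers -/
abbrev Qbar : Type := AlgebraicClosure ℚ

/-- the number fields inside the algebraic numbers are countably many -/
theorem countable_fields : Countable {K : IntermediateField ℚ Qbar // NumberField K} := by
  have hQ : Countable Qbar := countable_Qbar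
  have hsurj : ∀ K : {K : IntermediateField ℚ Qbar // NumberField K},
      ∃ S : Finset Qbar, IntermediateField.adjoin ℚ (S : Set Qbar) = K.1 := by
    rintro ⟨K, hK⟩
    have h0 : FiniteDimensional ℚ K := hK.to_finiteDimensional
    obtain ⟨n, b, hb⟩ := Module.Finite.exists_fin (R := ℚ) (M := K)
    classical
    refine ⟨Finset.univ.image (fun i => (b i : Qbar)), ?_⟩
    apply le_antisymm
    · rw [IntermediateField.adjoin_le_iff]
      intro x hx
      simp only [Finset.coe_image, Finset.coe_univ, Set.image_univ, Set.mem_range] at hx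
      obtain ⟨i, rfl⟩ := hx
      exact (b i).2
    · intro x hx
      have h1 : (⟨x, hx⟩ : K) ∈ Submodule.span ℚ (Set.range b) := by rw [hb]; trivial
      have key : ∀ z : K, z ∈ Submodule.span ℚ (Set.range b) →
          (z : Qbar) ∈ IntermediateField.adjoin ℚ
            ((Finset.univ.image (fun i => (b i : Qbar)) : Finset Qbar) : Set Qbar) := by
        intro z hz
        induction hz using Submodule.span_induction with
        | mem z hz =>
          obtain ⟨i, rfl⟩ := hz
          apply IntermediateField.subset_adjoin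
          simp
        | zero => exact zero_mem _
        | add z w _ _ hz hw => exact add_mem hz hw
        | smul a z _ hz =>
          have h2 : ((a • z : K) : Qbar) = algebraMap ℚ Qbar a * (z : Qbar) := by
            rw [Rat.smul_def]
            push_cast
            simp
          rw [h2]
          exact mul_mem (IntermediateField.algebraMap_mem _ a) hz
      exact key _ h1
  choose g hg using hsurj
  have hinj : Function.Injective g := by
    intro K K' h
    apply Subtype.ext
    rw [← hg K, ← hg K', h]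
  exact hinj.countable

/-- one number field; the height is relative to the field -/
theorem near_rel {K : Type} [Field K] [NumberField K] {X : Type} [MetricSpace X] {Bad : K → Prop} {s τ : ℝ}
    (hs : 0 ≤ s) (hτ : 0 < τ)
    (hcount : ∀ ε : ℝ, 0 < ε → ∃ C : ℝ, 0 < C ∧ ∀ B : ℝ, 1 ≤ B →
      {j : K | Bad j ∧ Height.logHeight₁ j ≤ Module.finrank ℚ K * Real.log B}.Finite ∧
      (({j : K | Bad j ∧ Height.logHeight₁ j ≤ Module.finrank ℚ K * Real.log B}.ncard : ℕ) : ℝ) ≤
        (C * B ^ (s + ε)) ^ Module.finrank ℚ K)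
    (φ : K → X) :
    ∃ E : Set X, dimH E ≤ ENNReal.ofReal (s / τ) ∧ ∀ ξ : X, ξ ∉ E → ∀ A : ℝ,
      {j : K | dist (φ j) ξ ≤ A * Height.mulHeight₁ j ^ (-τ) ∧ Bad j}.Finite := by
  have hK : Countable K := (Module.finBasis ℚ K).equivFun.injective.countable
  have hn : 0 < Module.finrank ℚ K := Module.finrank_pos
  have hn' : (0 : ℝ) < Module.finrank ℚ K := by exact_mod_cast hn
  refine near_dim (T := K) (X := X) (H := fun j => Height.mulHeight₁ j)
    (fun j => Height.one_le_mulHeight₁ j) hs hτ (fun ε hε => ?_) φ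
  obtain ⟨C, hC, h⟩ := hcount ε hε
  refine ⟨C ^ Module.finrank ℚ K, fun B hB => ?_⟩
  have hB0 : 0 < B := by linarith
  have hB1 : 1 ≤ B ^ (1 / (Module.finrank ℚ K : ℝ)) := Real.one_le_rpow hB (by positivity)
  obtain ⟨h1, h2⟩ := h _ hB1
  have hset : {j : K | Bad j ∧ Height.logHeight₁ j ≤
      Module.finrank ℚ K * Real.log (B ^ (1 / (Module.finrank ℚ K : ℝ)))} =
      {j : K | Bad j ∧ Height.mulHeight₁ j ≤ B} := by
    ext j
    have h3 : (Module.finrank ℚ K : ℝ) * Real.log (B ^ (1 / (Module.finrank ℚ K : ℝ))) = Real.log B := by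
      rw [Real.log_rpow hB0]
      field_simp
    rw [Set.mem_ofPred_eq, Set.mem_ofPred_eq, h3, Height.logHeight₁,
      Real.log_le_log_iff (by linarith [Height.one_le_mulHeight₁ j]) hB0]
  rw [hset] at h1 h2
  refine ⟨h1, h2.trans (le_of_eq ?_)⟩
  rw [mul_pow, ← Real.rpow_mul hB0.le, ← Real.rpow_natCast (B ^ _), ← Real.rpow_mul hB0.le]
  congr 2
  field_simp

/-- all number fields inside the algebraic numbers at once -/
theorem near_fields {X : Type} [MetricSpace X]
    (Bad : ∀ (K : IntermediateField ℚ Qbar) [NumberField K], K → Prop) {s τ : ℝ}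
    (hs : 0 ≤ s) (hτ : 0 < τ)
    (hcount : ∀ (K : IntermediateField ℚ Qbar) [NumberField K] (ε : ℝ), 0 < ε → ∃ C : ℝ, 0 < C ∧ ∀ B : ℝ, 1 ≤ B →
      {j : K | Bad K j ∧ Height.logHeight₁ j ≤ Module.finrank ℚ K * Real.log B}.Finite ∧
      (({j : K | Bad K j ∧ Height.logHeight₁ j ≤ Module.finrank ℚ K * Real.log B}.ncard : ℕ) : ℝ) ≤
        (C * B ^ (s + ε)) ^ Module.finrank ℚ K)
    (φ : Qbar → X) :
    ∃ E : Set X, dimH E ≤ ENNReal.ofReal (s / τ) ∧ ∀ ξ : X, ξ ∉ E →
      ∀ (K : IntermediateField ℚ Qbar) [NumberField K] (A : ℝ),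
        {j : K | dist (φ j) ξ ≤ A * Height.mulHeight₁ j ^ (-τ) ∧ Bad K j}.Finite := by
  have hc := countable_fields
  have h : ∀ K : {K : IntermediateField ℚ Qbar // NumberField K}, ∃ E : Set X,
      dimH E ≤ ENNReal.ofReal (s / τ) ∧ ∀ ξ : X, ξ ∉ E → ∀ [NumberField K.1] (A : ℝ),
        {j : K.1 | dist (φ j) ξ ≤ A * Height.mulHeight₁ j ^ (-τ) ∧ Bad K.1 j}.Finite := by
    rintro ⟨K, hK⟩
    obtain ⟨E, hE, hE'⟩ := near_rel (K := K) (X := X) (Bad := fun j => Bad K j) hs hτ
      (fun ε hε => hcount K ε hε) (fun j => φ j)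
    exact ⟨E, hE, fun ξ hξ _ A => hE' ξ hξ A⟩
  choose E hE hE' using h
  refine ⟨⋃ K, E K, ?_, fun ξ hξ K _ A => ?_⟩
  · rw [dimH_iUnion]
    exact iSup_le hE
  · exact hE' ⟨K, inferInstance⟩ ξ (fun h => hξ (Set.mem_iUnion.2 ⟨_, h⟩)) A

end Pool.Agent.R559.NP
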