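import Pool.Agent.Y854.GM.Win
import Pool.Agent.H510R2.Div

/-!
# Tuples of integers with a divisor of the product in short windows around a sequence
-/

set_option autoImplicit false

namespace Pool.Agent.R559.NP

open Finset Filter Topology Pool.Agent.Y854.GM

/-- the height `max |x_j|` -/
noncomputable def height {n : ℕ} (x : Fin n → ℤ) : ℝ := ⨆ i, ((|x i| : ℤ) : ℝ)

/-- the product of the primes dividing `x_1 ⋯ x_n` -/
def rad {n : ℕ} (x : Fin n → ℤ) : ℕ := ∏ p ∈ (∏ i, x i).natAbs.primeFactors, p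

variable {n : ℕ}

lemma abs_le_height (x : Fin n → ℤ) (i : Fin n) : ((|x i| : ℤ) : ℝ) ≤ height x :=
  le_ciSup (f := fun i => ((|x i| : ℤ) : ℝ)) (Set.finite_range _).bddAbove i

lemma height_le_iff (hn : 0 < n) (x : Fin n → ℤ) (B : ℝ) :
    height x ≤ B ↔ ∀ i, ((|x i| : ℤ) : ℝ) ≤ B := by
  have : Nonempty (Fin n) := ⟨⟨0, hn⟩⟩
  exact ⟨fun h i => (abs_le_height x i).trans h, fun h => ciSup_le h⟩

lemma one_le_height (hn : 0 < n) {x : Fin n → ℤ} (hx : ∀ i, x i ≠ 0) : 1 ≤ height x := by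
  have h1 : (1 : ℤ) ≤ |x ⟨0, hn⟩| := Int.one_le_abs (hx _)
  exact le_trans (by exact_mod_cast h1) (abs_le_height x ⟨0, hn⟩)

lemma rad_pos (x : Fin n → ℤ) : 0 < rad x :=
  Finset.prod_pos fun _ hp => (Nat.prime_of_mem_primeFactors hp).pos

lemma prod_natAbs_ne_zero {x : Fin n → ℤ} (hx : ∀ i, x i ≠ 0) : (∏ i, x i).natAbs ≠ 0 := by
  rw [Int.natAbs_ne_zero]
  exact Finset.prod_ne_zero_iff.2 fun i _ => hx i

/-- a tuple with `rad x = 1` has height one -/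
lemma height_le_one_of_rad (hn : 0 < n) {x : Fin n → ℤ} (hx : ∀ i, x i ≠ 0) (hr : rad x < 2) :
    height x ≤ 1 := by
  rw [height_le_iff hn]
  intro i
  have h0 := prod_natAbs_ne_zero hx
  have h1 : (∏ i, x i).natAbs = 1 := by
    by_contra hne
    obtain ⟨p, hp, hpd⟩ := Nat.exists_prime_and_dvd hne
    have hmem : p ∈ (∏ i, x i).natAbs.primeFactors := Nat.mem_primeFactors.2 ⟨hp, hpd, h0⟩
    have h2 : p ≤ rad x := Nat.le_of_dvd (rad_pos x) (Finset.dvd_prod_of_mem _ hmem)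
    have := hp.two_le
    omega
  have h2 : (x i).natAbs ∣ 1 := by
    rw [← h1]
    exact Int.natAbs_dvd_natAbs.2 (Finset.dvd_prod_of_mem _ (Finset.mem_univ i))
  have h3 : (x i).natAbs = 1 := Nat.dvd_one.1 h2
  have h4 : |x i| = 1 := by
    rw [Int.abs_eq_natAbs, h3]
    rfl
  rw [h4]
  simp

lemma prod_natAbs_le {x : Fin n → ℤ} {B : ℝ} (hx : height x ≤ B) :
    (((∏ i, x i).natAbs : ℕ) : ℝ) ≤ B ^ n := by
  rw [Nat.cast_natAbs, Int.cast_abs, Int.cast_prod, Finset.abs_prod]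
  calc ∏ i, |((x i : ℤ) : ℝ)| ≤ ∏ _i : Fin n, B := by
        refine Finset.prod_le_prod (fun i _ => abs_nonneg _) fun i _ => ?_
        have := (abs_le_height x i).trans hx
        rwa [Int.cast_abs] at this
    _ = B ^ n := by rw [Finset.prod_const, Finset.card_univ, Fintype.card_fin]

/-- the integers `m` dividing the product of a tuple of the class `Bad` of height at most `m ^ A` -/
def DivBad (Bad : (Fin n → ℤ) → Prop) (A : ℝ) : Set ℕ :=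
  {m : ℕ | ∃ x, Bad x ∧ height x ≤ (m : ℝ) ^ A ∧ (m : ℤ) ∣ ∏ i, x i}

open Classical in
theorem count_div {Bad : (Fin n → ℤ) → Prop} (hne : ∀ x, Bad x → ∀ i, x i ≠ 0)
    {s A : ℝ} (hA : 0 < A)
    (hcount : ∀ δ : ℝ, 0 < δ → ∃ C : ℝ, ∀ B : ℝ, 1 ≤ B → {x | Bad x ∧ height x ≤ B}.Finite ∧
      (({x | Bad x ∧ height x ≤ B}.ncard : ℕ) : ℝ) ≤ C * B ^ (s + δ)) :
    ∀ ε : ℝ, 0 < ε → ∃ C : ℝ, ∀ X : ℕ, 1 ≤ X →
      (((Ioc 0 X).filter (fun m => m ∈ DivBad Bad A)).card : ℝ) ≤ C * (X : ℝ) ^ (A * s + ε) := by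
  intro ε hε
  have hn1 : (0 : ℝ) < (n : ℝ) + 1 := by positivity
  set δ : ℝ := ε / (2 * A) with hδ
  set δ' : ℝ := ε / (2 * A * (n + 1)) with hδ'
  have hδ0 : 0 < δ := by positivity
  have hδ0' : 0 < δ' := by positivity
  obtain ⟨C, hC⟩ := hcount δ hδ0
  obtain ⟨D, hD0, hD⟩ := Pool.Agent.H510R2.divisor_bound δ' hδ0'
  refine ⟨|C| * D, fun X hX => ?_⟩
  have hX1 : (1 : ℝ) ≤ X := by exact_mod_cast hX
  have hX0 : (0 : ℝ) < X := by linarith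
  set B : ℝ := (X : ℝ) ^ A with hB
  have hB1 : 1 ≤ B := Real.one_le_rpow hX1 hA.le
  have hB0 : 0 < B := by linarith
  obtain ⟨hfin, hcard⟩ := hC B hB1
  set E : Finset (Fin n → ℤ) := hfin.toFinset with hE
  have hEmem : ∀ x, x ∈ E ↔ Bad x ∧ height x ≤ B := fun x => by
    rw [hE, Set.Finite.mem_toFinset]
    rfl
  have hsub : (Ioc 0 X).filter (fun m => m ∈ DivBad Bad A) ⊆
      E.biUnion fun x => (∏ i, x i).natAbs.divisors := by
    intro m hm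
    rw [mem_filter, mem_Ioc] at hm
    obtain ⟨⟨hm0, hmX⟩, x, hx, hht, hdvd⟩ := hm
    rw [mem_biUnion]
    refine ⟨x, (hEmem x).2 ⟨hx, hht.trans ?_⟩, ?_⟩
    · exact Real.rpow_le_rpow (Nat.cast_nonneg _) (by exact_mod_cast hmX) hA.le
    · rw [Nat.mem_divisors]
      exact ⟨by simpa using Int.natAbs_dvd_natAbs.2 hdvd, prod_natAbs_ne_zero (hne x hx)⟩
  have h1 : ∀ x ∈ E, (((∏ i, x i).natAbs.divisors.card : ℕ) : ℝ) ≤ D * (B ^ n) ^ δ' := by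
    intro x hx
    have hx' := (hEmem x).1 hx
    have h2 : 1 ≤ (∏ i, x i).natAbs := Nat.one_le_iff_ne_zero.2 (prod_natAbs_ne_zero (hne x hx'.1))
    refine (hD _ h2).trans (mul_le_mul_of_nonneg_left ?_ hD0.le)
    exact Real.rpow_le_rpow (Nat.cast_nonneg _) (prod_natAbs_le hx'.2) hδ0'.le
  have h3 : (((Ioc 0 X).filter (fun m => m ∈ DivBad Bad A)).card : ℝ) ≤
      (E.card : ℝ) * (D * (B ^ n) ^ δ') := by
    calc (((Ioc 0 X).filter (fun m => m ∈ DivBad Bad A)).card : ℝ)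
        ≤ ((∑ x ∈ E, (∏ i, x i).natAbs.divisors.card : ℕ) : ℝ) := by
          exact_mod_cast (card_le_card hsub).trans card_biUnion_le
      _ = ∑ x ∈ E, (((∏ i, x i).natAbs.divisors.card : ℕ) : ℝ) := by push_cast; rfl
      _ ≤ ∑ _x ∈ E, D * (B ^ n) ^ δ' := sum_le_sum h1
      _ = (E.card : ℝ) * (D * (B ^ n) ^ δ') := by rw [sum_const, nsmul_eq_mul]
  have h4 : (E.card : ℝ) ≤ |C| * B ^ (s + δ) := by
    have h5 : E.card = {x | Bad x ∧ height x ≤ B}.ncard := by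
      rw [hE, Set.ncard_eq_toFinset_card _ hfin]
    rw [h5]
    exact hcard.trans (mul_le_mul_of_nonneg_right (le_abs_self C) (by positivity))
  have h6 : B ^ (s + δ) * (B ^ n) ^ δ' ≤ (X : ℝ) ^ (A * s + ε) := by
    have e1 : (B ^ n) ^ δ' = B ^ ((n : ℝ) * δ') := by
      rw [← Real.rpow_natCast B n, ← Real.rpow_mul hB0.le]
    rw [e1, ← Real.rpow_add hB0, hB, ← Real.rpow_mul hX0.le]
    apply Real.rpow_le_rpow_of_exponent_le hX1
    have e2 : A * δ = ε / 2 := by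
      rw [hδ]
      field_simp
    have e3 : A * ((n : ℝ) * δ') ≤ ε / 2 := by
      have e4 : A * (((n : ℝ) + 1) * δ') = ε / 2 := by
        rw [hδ']
        field_simp
      have e5 : (n : ℝ) * δ' ≤ ((n : ℝ) + 1) * δ' :=
        mul_le_mul_of_nonneg_right (by linarith) hδ0'.le
      calc A * ((n : ℝ) * δ') ≤ A * (((n : ℝ) + 1) * δ') := mul_le_mul_of_nonneg_left e5 hA.le
        _ = ε / 2 := e4
    calc A * (s + δ + (n : ℝ) * δ') = A * s + A * δ + A * ((n : ℝ) * δ') := by ring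
      _ ≤ A * s + ε := by linarith
  calc (((Ioc 0 X).filter (fun m => m ∈ DivBad Bad A)).card : ℝ)
      ≤ (E.card : ℝ) * (D * (B ^ n) ^ δ') := h3
    _ ≤ (|C| * B ^ (s + δ)) * (D * (B ^ n) ^ δ') :=
        mul_le_mul_of_nonneg_right h4 (by positivity)
    _ = |C| * D * (B ^ (s + δ) * (B ^ n) ^ δ') := by ring
    _ ≤ |C| * D * (X : ℝ) ^ (A * s + ε) := mul_le_mul_of_nonneg_left h6 (by positivity)

/-- the windows for one class of exceptional tuples -/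
theorem win_fixed {Bad : (Fin n → ℤ) → Prop} (hne : ∀ x, Bad x → ∀ i, x i ≠ 0)
    {s A : ℝ} (hs : 0 ≤ s) (hA : 0 < A)
    (hcount : ∀ δ : ℝ, 0 < δ → ∃ C : ℝ, ∀ B : ℝ, 1 ≤ B → {x | Bad x ∧ height x ≤ B}.Finite ∧
      (({x | Bad x ∧ height x ≤ B}.ncard : ℕ) : ℝ) ≤ C * B ^ (s + δ))
    {v : ℕ → ℝ} {τ θ : ℝ} (hpos : ∀ N, 1 ≤ v N) (hτ : 0 ≤ τ) (hv : ExpLe v τ) (hθ : θ < 1) :
    ∃ E : Set ℝ, dimH E ≤ ENNReal.ofReal ((A * s + τ) / (1 - θ)) ∧ ∀ α : ℝ, 0 < α → α ∉ E →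
      ∃ N₀ : ℕ, ∀ N : ℕ, N₀ ≤ N → ∀ m : ℕ, |(m : ℝ) - α * v N| ≤ (v N) ^ θ →
        ∀ x : Fin n → ℤ, Bad x → height x ≤ (m : ℝ) ^ A → ¬ (m : ℤ) ∣ ∏ i, x i := by
  classical
  obtain ⟨E, h1, h2⟩ := win_nat (DivBad Bad A) hpos hτ hv (mul_nonneg hA.le hs) hθ
    (count_div hne hA hcount)
  refine ⟨E, h1, fun α hα hαE => ?_⟩
  obtain ⟨N₀, hN⟩ := h2 α hα hαE
  refine ⟨N₀, fun N hN1 m hm x hx hht hdvd => (hN N hN1 m hm).2 ⟨x, hx, hht, hdvd⟩⟩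

/-- finitely many `m` -/
lemma good_small (hn : 0 < n) (A : ℝ) (B : ℕ) :
    ∃ M : ℝ, ∀ m : ℕ, m ≤ B → ∀ x : Fin n → ℤ, (∀ i, x i ≠ 0) → (m : ℤ) ∣ ∏ i, x i →
      height x ≤ (m : ℝ) ^ A → height x ≤ (rad x : ℝ) ^ M := by
  obtain ⟨M, hM⟩ := pow_unbounded_of_one_lt (((B : ℝ) + 1) ^ |A|) (one_lt_two : (1 : ℝ) < 2)
  refine ⟨M, fun m hm x hx hdvd hht => ?_⟩
  have hm1 : 1 ≤ m := by
    rcases Nat.eq_zero_or_pos m with h | h
    · exfalso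
      rw [h] at hdvd
      have : ∏ i, x i = 0 := by simpa using hdvd
      exact (Finset.prod_ne_zero_iff.2 fun i _ => hx i) this
    · exact h
  have hm' : (1 : ℝ) ≤ m := by exact_mod_cast hm1
  have hmB : (m : ℝ) ≤ (B : ℝ) + 1 := by
    have : (m : ℝ) ≤ B := by exact_mod_cast hm
    linarith
  by_cases hr : rad x < 2
  · refine (height_le_one_of_rad hn hx hr).trans ?_
    have h1 : (1 : ℝ) ≤ (rad x : ℝ) := by exact_mod_cast rad_pos x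
    exact Real.one_le_rpow h1 (Nat.cast_nonneg M)
  · have h2 : (2 : ℝ) ≤ (rad x : ℝ) := by
      have : 2 ≤ rad x := by omega
      exact_mod_cast this
    calc height x ≤ (m : ℝ) ^ A := hht
      _ ≤ (m : ℝ) ^ |A| := Real.rpow_le_rpow_of_exponent_le hm' (le_abs_self A)
      _ ≤ ((B : ℝ) + 1) ^ |A| := Real.rpow_le_rpow (by linarith) hmB (abs_nonneg A)
      _ ≤ 2 ^ M := hM.le
      _ = (2 : ℝ) ^ (M : ℝ) := (Real.rpow_natCast _ _).symm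
      _ ≤ (rad x : ℝ) ^ (M : ℝ) := Real.rpow_le_rpow (by norm_num) h2 (Nat.cast_nonneg M)

lemma good_mono {x : Fin n → ℤ} {M M' : ℝ} (h : height x ≤ (rad x : ℝ) ^ M) (hM : M ≤ M') :
    height x ≤ (rad x : ℝ) ^ M' := by
  have h1 : (1 : ℝ) ≤ (rad x : ℝ) := by exact_mod_cast rad_pos x
  exact h.trans (Real.rpow_le_rpow_of_exponent_le h1 hM)

/-- all heights polynomially bounded in `m`, with one exponent `M` -/
theorem win_all (hn : 0 < n) {Adm : (Fin n → ℤ) → Prop} (hne : ∀ x, Adm x → ∀ i, x i ≠ 0)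
    {κ : ℝ} (hκ : 0 ≤ κ)
    (hcount : ∀ M : ℝ, 1 ≤ M → ∀ δ : ℝ, 0 < δ → ∃ C : ℝ, ∀ B : ℝ, 1 ≤ B →
      {x | (Adm x ∧ ¬ height x ≤ (rad x : ℝ) ^ M) ∧ height x ≤ B}.Finite ∧
      (({x | (Adm x ∧ ¬ height x ≤ (rad x : ℝ) ^ M) ∧ height x ≤ B}.ncard : ℕ) : ℝ) ≤
        C * B ^ (κ / M + δ))
    {v : ℕ → ℝ} {τ θ : ℝ} (hpos : ∀ N, 1 ≤ v N) (hτ : 0 ≤ τ) (hv : ExpLe v τ) (hθ : θ < 1) :
    ∃ E : Set ℝ, dimH E ≤ ENNReal.ofReal (τ / (1 - θ)) ∧ ∀ α : ℝ, 0 < α → α ∉ E → ∀ A : ℝ,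
      ∃ M : ℝ, ∀ N m : ℕ, |(m : ℝ) - α * v N| ≤ (v N) ^ θ → ∀ x : Fin n → ℤ, Adm x →
        (m : ℤ) ∣ ∏ i, x i → height x ≤ (m : ℝ) ^ A → height x ≤ (rad x : ℝ) ^ M := by
  have hθ0 : 0 < 1 - θ := by linarith
  have h : ∀ k j : ℕ, ∃ E : Set ℝ,
      dimH E ≤ ENNReal.ofReal ((((k : ℝ) + 1) * (κ / ((j : ℝ) + 1)) + τ) / (1 - θ)) ∧
      ∀ α : ℝ, 0 < α → α ∉ E → ∃ N₀ : ℕ, ∀ N : ℕ, N₀ ≤ N → ∀ m : ℕ,
        |(m : ℝ) - α * v N| ≤ (v N) ^ θ → ∀ x : Fin n → ℤ,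
          (Adm x ∧ ¬ height x ≤ (rad x : ℝ) ^ ((j : ℝ) + 1)) →
          height x ≤ (m : ℝ) ^ ((k : ℝ) + 1) → ¬ (m : ℤ) ∣ ∏ i, x i := fun k j =>
    win_fixed (Bad := fun x => Adm x ∧ ¬ height x ≤ (rad x : ℝ) ^ ((j : ℝ) + 1))
      (fun x hx => hne x hx.1) (div_nonneg hκ (by positivity)) (by positivity)
      (hcount ((j : ℝ) + 1) (by
        have : (0 : ℝ) ≤ j := Nat.cast_nonneg j
        linarith)) hpos hτ hv hθ
  choose E hdim hgood using h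
  refine ⟨⋃ k, ⋂ j, E k j, ?_, ?_⟩
  · rw [dimH_iUnion]
    refine iSup_le fun k => ?_
    have hlim : Tendsto (fun j : ℕ =>
        ENNReal.ofReal ((((k : ℝ) + 1) * (κ / ((j : ℝ) + 1)) + τ) / (1 - θ))) atTop
        (𝓝 (ENNReal.ofReal (τ / (1 - θ)))) := by
      apply ENNReal.tendsto_ofReal
      have h1 : Tendsto (fun j : ℕ => κ / ((j : ℝ) + 1)) atTop (𝓝 0) :=
        tendsto_const_nhds.div_atTop
          (tendsto_atTop_add_const_right _ _ tendsto_natCast_atTop_atTop)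
      have h5 : Tendsto (fun j : ℕ => (((k : ℝ) + 1) * (κ / ((j : ℝ) + 1)) + τ) / (1 - θ)) atTop
          (𝓝 ((((k : ℝ) + 1) * 0 + τ) / (1 - θ))) :=
        ((h1.const_mul _).add_const _).div_const _
      rwa [mul_zero, zero_add] at h5
    exact ge_of_tendsto' hlim fun j => (dimH_mono (Set.iInter_subset _ j)).trans (hdim k j)
  · intro α hα hαE A
    obtain ⟨k, hk⟩ := exists_nat_ge A
    have h1 : α ∉ ⋂ j, E k j := fun hcon => hαE (Set.mem_iUnion.2 ⟨k, hcon⟩)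
    rw [Set.mem_iInter] at h1
    push Not at h1
    obtain ⟨j, hj⟩ := h1
    obtain ⟨N₀, hN₀⟩ := hgood k j α hα hj
    -- the finitely many remaining windows
    obtain ⟨B, hB⟩ : ∃ B : ℕ, ∀ N < N₀, ∀ m : ℕ, |(m : ℝ) - α * v N| ≤ (v N) ^ θ → m ≤ B := by
      refine ⟨(Finset.range N₀).sup fun N => ⌈α * v N + (v N) ^ θ⌉₊, fun N hN m hm => ?_⟩
      have h2 : (m : ℝ) ≤ α * v N + (v N) ^ θ := by
        have := (abs_le.mp hm).2
        linarith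
      have h3 : m ≤ ⌈α * v N + (v N) ^ θ⌉₊ := by exact_mod_cast h2.trans (Nat.le_ceil _)
      exact h3.trans (Finset.le_sup (f := fun N => ⌈α * v N + (v N) ^ θ⌉₊)
        (Finset.mem_range.mpr hN))
    obtain ⟨M', hM'⟩ := good_small (n := n) hn A B
    refine ⟨max ((j : ℝ) + 1) M', fun N m hm x hx hdvd hht => ?_⟩
    rcases Nat.lt_or_ge N N₀ with hN | hN
    · exact good_mono (hM' m (hB N hN m hm) x (hne x hx) hdvd hht) (le_max_right _ _)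
    · by_cases hg : height x ≤ (rad x : ℝ) ^ ((j : ℝ) + 1)
      · exact good_mono hg (le_max_left _ _)
      · exfalso
        have hm1 : 1 ≤ m := by
          rcases Nat.eq_zero_or_pos m with h | h
          · exfalso
            rw [h] at hdvd
            have : ∏ i, x i = 0 := by simpa using hdvd
            exact (Finset.prod_ne_zero_iff.2 fun i _ => hne x hx i) this
          · exact h
        have hm' : (1 : ℝ) ≤ m := by exact_mod_cast hm1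
        exact hN₀ N hN m hm x ⟨hx, hg⟩
          (hht.trans (Real.rpow_le_rpow_of_exponent_le hm' (by linarith))) hdvd

end Pool.Agent.R559.NP
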