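import Pool.Agent.Results.MP_13bc7b_nt.SymmetricPowersFewClasses
import Pool.Agent.R559.NP.DynK
import Pool.Agent.R559.NP.Near4

/-!
# Symmetric powers of rational maps near a given point

Let `φ` be any map from the rational maps of degree `d ≥ 2` over number fields to a metric space `X`, which takes the same
value on maps conjugate over the algebraic numbers.  For all `ξ ∈ X` outside a set of Hausdorff dimension zero, all `D`,
`B` and `τ > 0` there is `M` such that for every `κ` all rational maps `f` of degree `d` over number fields `K` of degree at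
most `D` with `dist (φ f) ξ ≤ κ H(f) ^ (-τ)`, but those in finitely many conjugacy classes over the algebraic numbers, have
the following property: for all `n ≤ B` the `n`-th symmetric power of `f`, an endomorphism of `Pⁿ` of degree `d`, has at
most `M` preperiodic points in `Pⁿ(K)`, and `f` has at most `M` preperiodic points of degree at most `B` over `K`.
-/

set_option autoImplicit false

namespace Pool.Agent.Results.MP_13bc7b_nt.SymmetricPowersNearAPoint

open Filter Topology
open SymmetricPowersFewClasses (Qbar act height Pair preperiodic)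

variable {d : ℕ}

/-- The maps are conjugate over the algebraic numbers: for an invertible matrix `A` over the algebraic numbers we have
`G (A v) = A (F v)` in the projective line for all `v`. -/
def ConjugateQbar (f g : Pair d) : Prop :=
  ∃ A : Matrix (Fin 2) (Fin 2) Qbar, A.det ≠ 0 ∧ ∀ v : Fin 2 → Qbar, v ≠ 0 → ∃ c : Qbar, c ≠ 0 ∧
    act g.ext (A.mulVec v) = c • A.mulVec (act f.ext v)

lemma cq_iff (f g : Pair d) : ConjugateQbar f g ↔ Pool.Agent.R559.NP.Cj f.ext g.ext := Iff.rfl

/-- conjugacy classes over the algebraic numbers -/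
def st (d : ℕ) : Setoid (Pair d) where
  r := ConjugateQbar
  iseqv := ⟨fun f => Pool.Agent.R559.NP.Cj.refl f.ext, fun h => Pool.Agent.R559.NP.Cj.symm h,
    fun h h' => Pool.Agent.R559.NP.Cj.trans h h'⟩

lemma countable_classes (d : ℕ) : Countable (Quotient (st d)) := by
  have hQ : Countable Qbar := Pool.Agent.R559.NP.countable_Qbar
  have hinj : Function.Injective fun z : Quotient (st d) => z.out.ext := by
    intro z w h
    rw [← z.out_eq, ← w.out_eq]
    refine Quotient.sound (s := st d) ?_
    show Pool.Agent.R559.NP.Cj z.out.ext w.out.ext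
    simp only at h
    rw [h]
    exact Pool.Agent.R559.NP.Cj.refl _
  exact hinj.countable

/-- for some `n` with `1 ≤ n ≤ B` the `n`-th symmetric power has more than `M` preperiodic points in `Pⁿ(K)`, or there are
more than `M` preperiodic points of degree at most `B` over `K` -/
def ManyPoints (B M : ℕ) (f : Pair d) : Prop :=
  (∃ n : ℕ, 1 ≤ n ∧ n ≤ B ∧ ∃ Φ : Fin (n + 1) → MvPolynomial (Fin (n + 1)) f.K,
      f.IsSymmetricPower Φ ∧ (M : ℕ∞) < (preperiodic Φ).encard) ∨
    (M : ℕ∞) < (f.preperiodicOfDegree B).encard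

/-- **Theorem.** Let `d ≥ 2` and let `φ` be a map from the pairs `(K, f)` of a number field and a pair of binary forms of
degree `d` over it to a metric space `X`, which takes the same value on pairs conjugate over the algebraic numbers.  There
is `E ⊆ X` of Hausdorff dimension zero such that for all `ξ ∈ X` outside `E`, all `D`, `B` and `τ > 0` there is `M` such that
for every `κ` there is a finite set `S` of pairs such that every pair `(K, f)` of a number field `K` of degree at most `D`
and an endomorphism `f` of degree `d` of the projective line over `K` of height at most `T`, with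
`dist (φ f) ξ ≤ κ T ^ (-τ)`, which is not conjugate to a member of `S`, has the following property: the `n`-th symmetric
power of `f`, an endomorphism of degree `d` of `Pⁿ` over `K`, has at most `M` preperiodic points in `Pⁿ(K)` for all
`1 ≤ n ≤ B`, and `f` has at most `M` preperiodic points of degree at most `B` over `K`. -/
theorem result (d : ℕ) (hd : 2 ≤ d) (X : Type) [MetricSpace X] (φ : Pair d → X)
    (hφ : ∀ f g, ConjugateQbar f g → φ f = φ g) :
    ∃ E : Set X, dimH E = 0 ∧ ∀ ξ : X, ξ ∉ E → ∀ D B : ℕ, ∀ τ : ℝ, 0 < τ →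
      ∃ M : ℕ, ∀ κ : ℝ, ∃ S : Finset (Pair d), ∀ (f : Pair d) (T : ℕ), 1 ≤ T → f.IsEndomorphism →
        Module.finrank ℚ f.K ≤ D → height f.F ≤ T → dist (φ f) ξ ≤ κ * (T : ℝ) ^ (-τ) →
        (∀ g ∈ S, ¬ ConjugateQbar g f) → ¬ ManyPoints B M f := by
  classical
  have key : ∀ p : ℕ × ℕ, ∃ E : Set X, dimH E = 0 ∧ ∀ ξ : X, ξ ∉ E → ∀ τ : ℝ, 0 < τ →
      ∃ M : ℕ, ∀ κ : ℝ, ∃ S : Finset (Pair d), ∀ (f : Pair d) (T : ℕ), 1 ≤ T → f.IsEndomorphism →
        Module.finrank ℚ f.K ≤ p.1 → height f.F ≤ T → dist (φ f) ξ ≤ κ * (T : ℝ) ^ (-τ) →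
        (∀ g ∈ S, ¬ ConjugateQbar g f) → ¬ ManyPoints p.2 M f := by
    rintro ⟨D, B⟩
    have hres := fun j : ℕ =>
      SymmetricPowersFewClasses.result D B d hd (1 / ((j : ℝ) + 1)) (by positivity)
    choose M C hM using hres
    obtain ⟨E, hE, hE'⟩ := Pool.Agent.R559.NP.near_classes (st d) (countable_classes d) φ hφ
      (fun j T f => f.IsEndomorphism ∧ f.Exceptional D B (M j) T)
      (by
        rintro j T T' f hT ⟨h0, h1, h2, h3⟩
        exact ⟨h0, h1, h2.trans (by exact_mod_cast hT), h3⟩)
      (by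
        intro j
        refine ⟨C j, fun T hT S hS hS' => hM j T hT S hS fun f hf g hg hne hc => ?_⟩
        obtain ⟨L, -, -, A, -, h1, h2⟩ := hc
        exact hS' f hf g hg hne ⟨A, h1, h2⟩)
    refine ⟨E, hE, fun ξ hξ τ hτ => ?_⟩
    obtain ⟨j, hj⟩ := hE' ξ hξ τ hτ
    refine ⟨M j, fun κ => ?_⟩
    obtain ⟨S, hS⟩ := hj κ
    refine ⟨S, fun f T hT h0 h1 h2 h3 h4 h5 => ?_⟩
    obtain ⟨g, hg, hgf⟩ := hS f T hT ⟨h0, h1, h2, h5⟩ h3
    exact h4 g hg hgf
  choose G hG1 hG2 using key
  refine ⟨⋃ p, G p, ?_, fun ξ hξ D B τ hτ =>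
    hG2 (D, B) ξ (fun h => hξ (Set.mem_iUnion.2 ⟨_, h⟩)) τ hτ⟩
  rw [dimH_iUnion]
  simp [hG1]

end Pool.Agent.Results.MP_13bc7b_nt.SymmetricPowersNearAPoint
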